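import Mathlib

/-!
# Finitely many subspaces contain a subspace of maximal slope for all weights

`W` is a finite family of subspaces of a finite-dimensional space `V`. The slope of a subspace `E` for the weights `ρ` is
`∑ ρ a * dim (E ⊓ W a) / dim E`.
-/

set_option autoImplicit false

namespace Pool.Agent.ZS

open Module

section

variable {k V : Type*} [Field k] [AddCommGroup V] [Module k V] [FiniteDimensional k V]

/-- A finite set of vectors, which meets a subspace of maximal slope for all weights. -/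
theorem hn1 [Nontrivial V] {A : Type*} [Fintype A] (W : A → Submodule k V) :
    ∃ Q : Finset V, (∀ q ∈ Q, q ≠ 0) ∧ ∀ ρ : A → ℝ, ∃ U : Submodule k V, (∃ q ∈ Q, q ∈ U) ∧
      ∀ E : Submodule k V, (∑ a, ρ a * finrank k ↥(E ⊓ W a)) * finrank k U ≤ (∑ a, ρ a * finrank k ↥(U ⊓ W a)) * finrank k E := by
  classical
  let F : Submodule k V → Fin (finrank k V + 1) × (A → Fin (finrank k V + 1)) := fun E =>
    (⟨finrank k E, Nat.lt_succ_of_le (Submodule.finrank_le _)⟩,
      fun a => ⟨finrank k ↥(E ⊓ W a), Nat.lt_succ_of_le (Submodule.finrank_le _)⟩)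
  let Z : Finset (Fin (finrank k V + 1) × (A → Fin (finrank k V + 1))) :=
    Finset.univ.filter fun z => ∃ E : Submodule k V, E ≠ ⊥ ∧ F E = z
  have hZ : ∀ z, ∃ E : Submodule k V, ∃ q : V, z ∈ Z → E ≠ ⊥ ∧ F E = z ∧ q ∈ E ∧ q ≠ 0 := by
    intro z
    by_cases hz : z ∈ Z
    · obtain ⟨E, hE, hE'⟩ := (Finset.mem_filter.1 hz).2
      obtain ⟨q, hq, hq0⟩ := Submodule.exists_mem_ne_zero_of_ne_bot hE
      exact ⟨E, q, fun _ => ⟨hE, hE', hq, hq0⟩⟩
    · exact ⟨⊥, 0, fun h => absurd h hz⟩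
  choose E q hEq using hZ
  refine ⟨Z.image q, ?_, fun ρ => ?_⟩
  · intro x hx
    obtain ⟨z, hz, rfl⟩ := Finset.mem_image.1 hx
    exact (hEq z hz).2.2.2
  have hne : Z.Nonempty := by
    refine ⟨F ⊤, Finset.mem_filter.2 ⟨Finset.mem_univ _, ⊤, ?_, rfl⟩⟩
    exact top_ne_bot
  obtain ⟨z, hz, hmax⟩ := Finset.exists_max_image Z (fun z => (∑ a, ρ a * ((z.2 a : ℕ) : ℝ)) / ((z.1 : ℕ) : ℝ)) hne
  refine ⟨E z, ⟨q z, Finset.mem_image_of_mem q hz, (hEq z hz).2.2.1⟩, fun E' => ?_⟩
  have hpos : ∀ E : Submodule k V, E ≠ ⊥ → (0 : ℝ) < finrank k E := by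
    intro E hE
    have : 0 < finrank k E := Nat.pos_of_ne_zero fun h => hE (Submodule.finrank_eq_zero.1 h)
    exact_mod_cast this
  by_cases hE' : E' = ⊥
  · subst hE'
    have h1 : ∀ a, finrank k ↥((⊥ : Submodule k V) ⊓ W a) = 0 := by
      intro a
      rw [bot_inf_eq, finrank_bot]
    simp only [h1, finrank_bot, Nat.cast_zero, mul_zero, Finset.sum_const_zero, zero_mul, le_refl]
  · have h1 := hmax (F E') (Finset.mem_filter.2 ⟨Finset.mem_univ _, E', hE', rfl⟩)
    have h2 : F (E z) = z := (hEq z hz).2.1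
    rw [← h2] at h1
    have h3 : (∑ a, ρ a * (finrank k ↥(E' ⊓ W a) : ℝ)) / (finrank k E' : ℝ) ≤
        (∑ a, ρ a * (finrank k ↥(E z ⊓ W a) : ℝ)) / (finrank k (E z) : ℝ) := h1
    rwa [div_le_div_iff₀ (hpos _ hE') (hpos _ (hEq z hz).1)] at h3

theorem map_dim {V' : Type*} [AddCommGroup V'] [Module k V'] (ev : V →ₗ[k] V') (U : Submodule k V) :
    (finrank k (U.map ev) : ℝ) = finrank k U - finrank k ↥(U ⊓ LinearMap.ker ev) := by
  have h1 := LinearMap.finrank_range_add_finrank_ker (ev.comp U.subtype)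
  have h2 : LinearMap.range (ev.comp U.subtype) = U.map ev := by
    rw [LinearMap.range_comp, Submodule.range_subtype]
  have h3 : LinearMap.ker (ev.comp U.subtype) = (U ⊓ LinearMap.ker ev).comap U.subtype := by
    rw [LinearMap.ker_comp]
    ext x
    simp
  have h4 : finrank k ↥((U ⊓ LinearMap.ker ev).comap U.subtype) = finrank k ↥(U ⊓ LinearMap.ker ev) :=
    (Submodule.comapSubtypeEquivOfLe inf_le_left).finrank_eq
  rw [h2, h3, h4] at h1
  have h5 : (finrank k (U.map ev) : ℝ) + finrank k ↥(U ⊓ LinearMap.ker ev) = finrank k U := by exact_mod_cast h1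
  linarith

/-- The image of a subspace of maximal slope under a linear map which does not vanish on it. -/
theorem hn2 [Nontrivial V] {A : Type*} [Fintype A] (W : A → Submodule k V) :
    ∃ Q : Finset V, (∀ q ∈ Q, q ≠ 0) ∧ ∀ ρ : A → ℝ, ∃ U : Submodule k V,
      ∀ {V' : Type*} [AddCommGroup V'] [Module k V'] (ev : V →ₗ[k] V'), (∀ q ∈ Q, ev q ≠ 0) →
        0 < finrank k (U.map ev) ∧ finrank k (U.map ev) * ∑ a, ρ a * (finrank k (W a) : ℝ) ≤
          finrank k V * ∑ a, ρ a * (finrank k ((U ⊓ W a).map ev) : ℝ) := by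
  obtain ⟨Q, hQ, h⟩ := hn1 W
  refine ⟨Q, hQ, fun ρ => ?_⟩
  obtain ⟨U, ⟨q, hq, hqU⟩, hU⟩ := h ρ
  refine ⟨U, fun ev hev => ?_⟩
  have hne : U.map ev ≠ ⊥ := by
    intro h1
    have h2 : ev q ∈ U.map ev := Submodule.mem_map_of_mem hqU
    rw [h1, Submodule.mem_bot] at h2
    exact hev q hq h2
  have hD' : 0 < finrank k (U.map ev) := Nat.pos_of_ne_zero fun h => hne (Submodule.finrank_eq_zero.1 h)
  refine ⟨hD', ?_⟩
  have hU0 : (0 : ℝ) < finrank k U := by
    have h1 : finrank k (U.map ev) ≤ finrank k U := Submodule.finrank_map_le ev U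
    exact_mod_cast hD'.trans_le h1
  have h1 := hU (U ⊓ LinearMap.ker ev)
  have h2 := hU ⊤
  have h3 : ∑ a, ρ a * (finrank k ((U ⊓ W a).map ev) : ℝ) =
      ∑ a, ρ a * (finrank k ↥(U ⊓ W a) : ℝ) - ∑ a, ρ a * (finrank k ↥(U ⊓ LinearMap.ker ev ⊓ W a) : ℝ) := by
    rw [← Finset.sum_sub_distrib]
    refine Finset.sum_congr rfl fun a _ => ?_
    rw [map_dim, inf_right_comm]
    ring
  have h4 : ∑ a, ρ a * (finrank k ↥((⊤ : Submodule k V) ⊓ W a) : ℝ) = ∑ a, ρ a * (finrank k (W a) : ℝ) :=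
    Finset.sum_congr rfl fun a _ => by rw [top_inf_eq]
  rw [h4, finrank_top] at h2
  rw [h3, map_dim]
  obtain ⟨x, hx⟩ : ∃ x : ℝ, x = ∑ a, ρ a * (finrank k ↥(U ⊓ W a) : ℝ) := ⟨_, rfl⟩
  obtain ⟨y, hy⟩ : ∃ y : ℝ, y = ∑ a, ρ a * (finrank k ↥(U ⊓ LinearMap.ker ev ⊓ W a) : ℝ) := ⟨_, rfl⟩
  obtain ⟨z, hz⟩ : ∃ z : ℝ, z = ∑ a, ρ a * (finrank k (W a) : ℝ) := ⟨_, rfl⟩
  obtain ⟨u, hu⟩ : ∃ u : ℝ, u = finrank k U := ⟨_, rfl⟩
  obtain ⟨n, hn⟩ : ∃ n : ℝ, n = finrank k ↥(U ⊓ LinearMap.ker ev) := ⟨_, rfl⟩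
  obtain ⟨d, hd⟩ : ∃ d : ℝ, d = finrank k V := ⟨_, rfl⟩
  rw [← hx, ← hy, ← hu, ← hn] at h1
  rw [← hx, ← hz, ← hu, ← hd] at h2
  rw [← hx, ← hy, ← hz, ← hu, ← hn, ← hd]
  rw [← hu] at hU0
  have hnu : n ≤ u := by
    rw [hn, hu]
    exact_mod_cast Submodule.finrank_mono (inf_le_left : U ⊓ LinearMap.ker ev ≤ U)
  have hd0 : 0 ≤ d := by
    rw [hd]
    exact Nat.cast_nonneg _
  refine le_of_mul_le_mul_right ?_ hU0
  calc (u - n) * z * u = (u - n) * (z * u) := by ring
    _ ≤ (u - n) * (x * d) := mul_le_mul_of_nonneg_left h2 (by linarith)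
    _ = d * (x * u - x * n) := by ring
    _ ≤ d * (x * u - y * u) := mul_le_mul_of_nonneg_left (by linarith) hd0
    _ = d * (x - y) * u := by ring

end

/-! ### adapted families -/

section

variable {k M : Type*} [Field k] [AddCommGroup M] [Module k M]

/-- A family adapted to a chain of subspaces. -/
theorem ab (F : ℕ → Submodule k M) (h0 : F 0 = ⊥) (hF : ∀ i, F i ≤ F (i + 1)) (hfd : ∀ i, FiniteDimensional k (F i)) (R : ℕ) :
    ∃ (ι : Type) (_ : Fintype ι) (e : ι → M) (τ : ι → ℕ), LinearIndependent k e ∧ (∀ i, τ i < R) ∧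
      (∀ i, e i ∈ F (τ i + 1)) ∧ Fintype.card ι = finrank k (F R) ∧
      ∀ w : ℕ → ℝ, ∑ i, w (τ i) = ∑ j ∈ Finset.range R, w j * ((finrank k (F (j + 1)) : ℝ) - finrank k (F j)) := by
  classical
  have hmono : Monotone F := monotone_nat_of_le_succ hF
  induction R with
  | zero =>
    refine ⟨Fin 0, inferInstance, Fin.elim0, Fin.elim0, linearIndependent_empty_type, fun i => i.elim0, fun i => i.elim0, ?_, ?_⟩
    · rw [h0, finrank_bot]
      rfl
    · intro w
      simp
  | succ R ih =>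
    obtain ⟨ι, hι, e, τ, he, hτ, heF, hc, hw⟩ := ih
    obtain ⟨C0, hC0⟩ := Submodule.exists_isCompl (F R)
    have hdis : Disjoint (F R) (C0 ⊓ F (R + 1)) := hC0.disjoint.mono_right inf_le_left
    have hsup : F R ⊔ (C0 ⊓ F (R + 1)) = F (R + 1) := by
      rw [← sup_inf_assoc_of_le C0 (hF R), hC0.sup_eq_top, top_inf_eq]
    have hfdC : FiniteDimensional k ↥(C0 ⊓ F (R + 1)) :=
      Submodule.finiteDimensional_of_le (inf_le_right : C0 ⊓ F (R + 1) ≤ F (R + 1))
    have hdim : finrank k (F R) + finrank k ↥(C0 ⊓ F (R + 1)) = finrank k (F (R + 1)) := by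
      have h1 := Submodule.finrank_sup_add_finrank_inf_eq (F R) (C0 ⊓ F (R + 1))
      rw [hsup, hdis.eq_bot, finrank_bot, add_zero] at h1
      exact h1.symm
    let b := finBasis k ↥(C0 ⊓ F (R + 1))
    let e' : Fin (finrank k ↥(C0 ⊓ F (R + 1))) → M := fun i => (b i : M)
    have he' : LinearIndependent k e' := b.linearIndependent.map' _ (Submodule.ker_subtype _)
    have hse : Submodule.span k (Set.range e) ≤ F R := by
      rw [Submodule.span_le]
      rintro _ ⟨i, rfl⟩
      exact hmono (hτ i) (heF i)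
    have hse' : Submodule.span k (Set.range e') ≤ C0 ⊓ F (R + 1) := by
      rw [Submodule.span_le]
      rintro _ ⟨i, rfl⟩
      exact (b i).2
    refine ⟨ι ⊕ Fin (finrank k ↥(C0 ⊓ F (R + 1))), inferInstance, Sum.elim e e', Sum.elim τ fun _ => R,
      he.sum_type he' (hdis.mono hse hse'), ?_, ?_, ?_, ?_⟩
    · rintro (i | i)
      · exact (hτ i).trans (Nat.lt_succ_self R)
      · exact Nat.lt_succ_self R
    · rintro (i | i)
      · exact heF i
      · exact (b i).2.2
    · rw [Fintype.card_sum, hc, Fintype.card_fin, hdim]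
    · intro w
      rw [Fintype.sum_sum_type, Finset.sum_range_succ, ← hw w]
      simp only [Sum.elim_inl, Sum.elim_inr, Finset.sum_const, Finset.card_univ, Fintype.card_fin, nsmul_eq_mul]
      have h1 : (finrank k (F R) : ℝ) + finrank k ↥(C0 ⊓ F (R + 1)) = finrank k (F (R + 1)) := by exact_mod_cast hdim
      rw [← h1]
      ring

/-- summation by parts -/
theorem abel (w D : ℕ → ℝ) (R : ℕ) : ∑ j ∈ Finset.range R, w j * (D (j + 1) - D j) =
    ∑ j ∈ Finset.range R, (w j - w (j + 1)) * D (j + 1) + w R * D R - w 0 * D 0 := by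
  induction R with
  | zero => simp
  | succ R ih =>
    rw [Finset.sum_range_succ, Finset.sum_range_succ, ih]
    ring

/-- The flag of a family of values `s` on an independent family `p`. -/
theorem flag {R : ℕ} (p : Fin R → M) (hp : LinearIndependent k p) (s : Fin R → ℝ) (hs : ∀ t, 0 ≤ s t) :
    ∃ (B : ℕ → Finset (Fin R)) (x : ℕ → ℝ), (∀ i, 0 ≤ x i) ∧
      ∑ i ∈ Finset.range R, x i * (finrank k (Submodule.span k (p '' B i)) : ℝ) = ∑ t, s t ∧
      ∀ (U : Submodule k M) {M' : Type*} [AddCommGroup M'] [Module k M'] (ev : M →ₗ[k] M'),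
        ∃ (n : ℕ) (e : Fin n → M) (σ : Fin n → ℝ), (∀ i, e i ∈ U) ∧ (LinearIndependent k fun i => ev (e i)) ∧
          (∀ i, e i ∈ Submodule.span k {z | ∃ t, z = p t ∧ σ i ≤ s t}) ∧ (∀ i, ∃ t, σ i = s t) ∧
          ∑ i, σ i = ∑ i ∈ Finset.range R, x i * (finrank k ((U ⊓ Submodule.span k (p '' B i)).map ev) : ℝ) := by
  classical
  obtain ⟨π, hπ⟩ : ∃ π : Equiv.Perm (Fin R), Antitone (s ∘ π) := by
    refine ⟨Tuple.sort fun t => -s t, fun i j hij => ?_⟩
    have h1 := Tuple.monotone_sort (fun t => -s t) hij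
    simp only [Function.comp_apply] at h1 ⊢
    linarith
  let w : ℕ → ℝ := fun j => if h : j < R then s (π ⟨j, h⟩) else 0
  have hw : ∀ j : Fin R, w j = s (π j) := fun j => dif_pos j.2
  have hwR : w R = 0 := dif_neg (lt_irrefl R)
  have hw0 : ∀ j, 0 ≤ w j := by
    intro j
    simp only [w]
    split_ifs
    · exact hs _
    · exact le_refl _
  have hwa : ∀ j, w (j + 1) ≤ w j := by
    intro j
    by_cases h : j + 1 < R
    · have h1 : w (j + 1) = s (π ⟨j + 1, h⟩) := dif_pos h
      have h2 : w j = s (π ⟨j, by omega⟩) := dif_pos (by omega)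
      rw [h1, h2]
      exact hπ (by simp [Fin.le_def])
    · have h1 : w (j + 1) = 0 := dif_neg h
      rw [h1]
      exact hw0 j
  let B : ℕ → Finset (Fin R) := fun j => (Finset.univ.filter fun i : Fin R => (i : ℕ) < j + 1).image π
  have hBc : ∀ j < R, (B j).card = j + 1 := by
    intro j hj
    rw [Finset.card_image_of_injective _ π.injective]
    have h1 : (Finset.univ.filter fun i : Fin R => (i : ℕ) < j + 1).card = ((Finset.range (j + 1))).card := by
      refine Finset.card_bij (fun i _ => (i : ℕ)) ?_ ?_ ?_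
      · intro i hi
        exact Finset.mem_range.2 (Finset.mem_filter.1 hi).2
      · intro i _ i' _ h
        exact Fin.ext h
      · intro i hi
        have h2 := Finset.mem_range.1 hi
        exact ⟨⟨i, by omega⟩, Finset.mem_filter.2 ⟨Finset.mem_univ _, h2⟩, rfl⟩
    rw [h1, Finset.card_range]
  have hBm : ∀ j, B j ⊆ B (j + 1) := by
    intro j
    refine Finset.image_subset_image fun i hi => ?_
    rw [Finset.mem_filter] at hi ⊢
    exact ⟨hi.1, by omega⟩
  have hBf : ∀ j < R, finrank k (Submodule.span k (p '' B j)) = j + 1 := by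
    intro j hj
    have h1 : p '' B j = ((B j).image p : Finset M) := (Finset.coe_image).symm
    have h2 : LinearIndepOn k id (((B j).image p : Finset M) : Set M) := by
      rw [Finset.coe_image]
      exact (hp.linearIndepOn_id).mono (Set.image_subset_range _ _)
    rw [h1, finrank_span_finset_eq_card h2, Finset.card_image_of_injective _ hp.injective, hBc j hj]
  refine ⟨B, fun j => w j - w (j + 1), fun j => sub_nonneg.2 (hwa j), ?_, ?_⟩
  · have h1 := abel w (fun j => (j : ℝ)) R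
    rw [hwR] at h1
    simp only [Nat.cast_zero, mul_zero, zero_mul, add_zero, sub_zero] at h1
    have h2 : ∑ j ∈ Finset.range R, (w j - w (j + 1)) * ((j + 1 : ℕ) : ℝ) = ∑ j ∈ Finset.range R, w j := by
      rw [← h1]
      refine Finset.sum_congr rfl fun j _ => ?_
      push_cast
      ring
    have h3 : ∑ j ∈ Finset.range R, (w j - w (j + 1)) * (finrank k (Submodule.span k (p '' B j)) : ℝ) =
        ∑ j ∈ Finset.range R, (w j - w (j + 1)) * ((j + 1 : ℕ) : ℝ) := by
      refine Finset.sum_congr rfl fun j hj => ?_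
      rw [hBf j (Finset.mem_range.1 hj)]
    rw [h3, h2, Finset.sum_range]
    simp only [hw]
    exact Equiv.sum_comp π s
  · intro U M' _ _ ev
    let F : ℕ → Submodule k M' := fun j => match j with
      | 0 => ⊥
      | j + 1 => (U ⊓ Submodule.span k (p '' B j)).map ev
    have hF1 : ∀ j, F (j + 1) = (U ⊓ Submodule.span k (p '' B j)).map ev := fun j => rfl
    have hfd : ∀ i, FiniteDimensional k (F i) := by
      intro i
      cases i with
      | zero => exact (inferInstance : FiniteDimensional k (⊥ : Submodule k M'))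
      | succ j =>
        have h1 : FiniteDimensional k (Submodule.span k (p '' B j)) :=
          FiniteDimensional.span_of_finite k ((B j).finite_toSet.image p)
        have h2 : FiniteDimensional k ↥(U ⊓ Submodule.span k (p '' B j)) := Submodule.finiteDimensional_of_le inf_le_right
        rw [hF1]
        infer_instance
    have hFm : ∀ i, F i ≤ F (i + 1) := by
      intro i
      cases i with
      | zero => exact bot_le
      | succ j =>
        rw [hF1, hF1]
        exact Submodule.map_mono (inf_le_inf_left _ (Submodule.span_mono (Set.image_mono (Finset.coe_subset.2 (hBm j)))))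
    obtain ⟨ι, hι, e, τ, he, hτ, heF, -, hsum⟩ := ab F rfl hFm hfd R
    have hlift : ∀ i, ∃ z : M, z ∈ U ∧ z ∈ Submodule.span k (p '' B (τ i)) ∧ ev z = e i := by
      intro i
      have h1 := heF i
      rw [hF1, Submodule.mem_map] at h1
      obtain ⟨z, hz, hz'⟩ := h1
      exact ⟨z, hz.1, hz.2, hz'⟩
    choose z hzU hzB hze using hlift
    let φ := Fintype.equivFin ι
    refine ⟨Fintype.card ι, fun i => z (φ.symm i), fun i => w (τ (φ.symm i)), fun i => hzU _, ?_, fun i => ?_, fun i => ?_, ?_⟩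
    · simp only [hze]
      exact he.comp _ φ.symm.injective
    · refine Submodule.span_mono ?_ (hzB (φ.symm i))
      rintro _ ⟨t, ht, rfl⟩
      refine ⟨t, rfl, ?_⟩
      obtain ⟨i', hi', rfl⟩ := Finset.mem_image.1 (Finset.mem_coe.1 ht)
      have h1 := (Finset.mem_filter.1 hi').2
      have h2 : w (τ (φ.symm i)) = s (π ⟨τ (φ.symm i), hτ _⟩) := dif_pos (hτ _)
      show w (τ (φ.symm i)) ≤ _
      rw [h2]
      refine hπ ?_
      rw [Fin.le_def]
      show (i' : ℕ) ≤ τ (φ.symm i)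
      omega
    · exact ⟨π ⟨τ (φ.symm i), hτ _⟩, dif_pos (hτ _)⟩
    · rw [Equiv.sum_comp φ.symm fun i => w (τ i), hsum w]
      have h1 := abel w (fun j => (finrank k (F j) : ℝ)) R
      have h2 : finrank k (F 0) = 0 := finrank_bot k M'
      rw [hwR, h2] at h1
      simp only [Nat.cast_zero, mul_zero, zero_mul, add_zero, sub_zero] at h1
      rw [h1]

end

end Pool.Agent.ZS
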