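import Pool.Agent.Helper42.SQ.GDefs2
import Pool.Agent.Helper68.ZS.HNF

/-!
# Forms of degree `δ` modulo an ideal: subspaces of maximal slope, and their images modulo a larger ideal
-/

set_option autoImplicit false

namespace Pool.Agent.ZS

open Module MvPolynomial
open Pool.Agent.SQ (hilb)

universe u v

section

variable {k : Type u} [Field k] {N : ℕ}

theorem fd_hom (e : ℕ) : FiniteDimensional k (homogeneousSubmodule (Fin (N + 1)) k e) := by
  have hfin : {μ : Fin (N + 1) →₀ ℕ | μ.degree = e}.Finite := Finsupp.finite_of_degree_eq _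
  have h1 : FiniteDimensional k (Submodule.span k ((fun μ => monomial μ (1 : k)) '' {μ : Fin (N + 1) →₀ ℕ | μ.degree = e})) :=
    FiniteDimensional.span_of_finite k (hfin.image _)
  refine Submodule.finiteDimensional_of_le (S₂ := Submodule.span k
    ((fun μ => monomial μ (1 : k)) '' {μ : Fin (N + 1) →₀ ℕ | μ.degree = e})) ?_
  intro p hp
  rw [p.as_sum]
  refine Submodule.sum_mem _ fun μ hμ => ?_
  have h2 : μ.degree = e := by
    have h3 := (show p.IsHomogeneous e from hp) (mem_support_iff.1 hμ)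
    rwa [Finsupp.degree_eq_weight_one]
  have h3 : monomial μ (coeff μ p) = coeff μ p • monomial μ (1 : k) := by
    rw [MvPolynomial.smul_monomial, smul_eq_mul, mul_one]
  rw [h3]
  exact Submodule.smul_mem _ _ (Submodule.subset_span ⟨μ, h2, rfl⟩)

/-- the forms of degree `δ` modulo `I` -/
noncomputable abbrev HQ (I : Ideal (MvPolynomial (Fin (N + 1)) k)) (δ : ℕ) :
    Submodule k (MvPolynomial (Fin (N + 1)) k ⧸ I) :=
  (homogeneousSubmodule (Fin (N + 1)) k δ).map (Ideal.Quotient.mkₐ k I).toLinearMap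

theorem mem_HQ {I : Ideal (MvPolynomial (Fin (N + 1)) k)} {δ : ℕ} {p : MvPolynomial (Fin (N + 1)) k}
    (hp : p.IsHomogeneous δ) : Ideal.Quotient.mk I p ∈ HQ I δ := ⟨p, hp, rfl⟩

theorem hnp {k : Type u} [Field k] [NumberField k] {N δ : ℕ} (I : Ideal (MvPolynomial (Fin (N + 1)) k))
    (hδ : ∃ p : MvPolynomial (Fin (N + 1)) k, p.IsHomogeneous δ ∧ p ∉ I) {A : Type} [Fintype A] (R : A → ℕ)
    (p : ∀ a, Fin (R a) → MvPolynomial (Fin (N + 1)) k) (hp : ∀ a t, (p a t).IsHomogeneous δ)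
    (hli : ∀ a, LinearIndependent k fun t => Ideal.Quotient.mk I (p a t)) :
    ∃ Q : Finset (MvPolynomial (Fin (N + 1)) k), (∀ q ∈ Q, q.IsHomogeneous δ ∧ q ∉ I) ∧
      ∀ (I' : Ideal (MvPolynomial (Fin (N + 1)) k)), I ≤ I' → (∀ q ∈ Q, q ∉ I') → ∀ {Λ : Type v} [Fintype Λ] (j : Λ → A)
        (κ : Λ → ℝ) (s : ∀ l, Fin (R (j l)) → ℝ), (∀ l t, 0 ≤ s l t) →
        ∃ V' : Submodule k (MvPolynomial (Fin (N + 1)) k ⧸ I'), V' ≤ HQ I' δ ∧ 0 < finrank k V' ∧
          ∃ (n : Λ → ℕ) (e : ∀ l, Fin (n l) → MvPolynomial (Fin (N + 1)) k) (σ : ∀ l, Fin (n l) → ℝ),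
            (∀ l i, (e l i).IsHomogeneous δ) ∧ (∀ l i, Ideal.Quotient.mk I' (e l i) ∈ V') ∧
            (∀ l, LinearIndependent k fun i => Ideal.Quotient.mk I' (e l i)) ∧
            (∀ l i, e l i ∈ Submodule.span k {z | ∃ t, z = p (j l) t ∧ σ l i ≤ s l t}) ∧
            (∀ l i, ∃ t, σ l i = s l t) ∧
            finrank k V' * ∑ l, κ l * ∑ t, s l t ≤ hilb I δ * ∑ l, κ l * ∑ i, σ l i := by
  classical
  have hfd := fd_hom (k := k) (N := N) δ
  let V : Submodule k (MvPolynomial (Fin (N + 1)) k ⧸ I) := HQ I δ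
  have hfdV : FiniteDimensional k V := inferInstance
  have hnt : Nontrivial V := by
    obtain ⟨q, hq, hqI⟩ := hδ
    refine ⟨⟨⟨Ideal.Quotient.mk I q, mem_HQ hq⟩, 0, fun h => hqI ?_⟩⟩
    exact Ideal.Quotient.eq_zero_iff_mem.1 (congrArg Subtype.val h)
  let p' : ∀ a, Fin (R a) → V := fun a t => ⟨Ideal.Quotient.mk I (p a t), mem_HQ (hp a t)⟩
  have hp' : ∀ a, LinearIndependent k (p' a) := fun a => LinearIndependent.of_comp V.subtype (hli a)
  let W : (Σ a : A, Finset (Fin (R a))) → Submodule k V := fun z => Submodule.span k (p' z.1 '' (z.2 : Set (Fin (R z.1))))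
  obtain ⟨Q₀, hQ₀, hU⟩ := hn2.{u, u, 0, u} W
  have hlift : ∀ q : V, ∃ z : MvPolynomial (Fin (N + 1)) k, z.IsHomogeneous δ ∧ Ideal.Quotient.mk I z = q.1 := by
    rintro ⟨_, z, hz, rfl⟩
    exact ⟨z, hz, rfl⟩
  choose ℓ hℓh hℓ using hlift
  refine ⟨Q₀.image ℓ, ?_, ?_⟩
  · intro q hq
    obtain ⟨q', hq', rfl⟩ := Finset.mem_image.1 hq
    refine ⟨hℓh _, fun h => hQ₀ q' hq' (Subtype.ext ?_)⟩
    rw [← hℓ, Ideal.Quotient.eq_zero_iff_mem.2 h]
    rfl
  intro I' hI' hQI' Λ hΛ j κ s hs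
  have hfl := fun l => flag (p' (j l)) (hp' (j l)) (s l) (hs l)
  choose B x _ hBs hBe using hfl
  let ρ : (Σ a : A, Finset (Fin (R a))) → ℝ := fun z =>
    ∑ l, ∑ i ∈ Finset.range (R (j l)), if z = ⟨j l, B l i⟩ then κ l * x l i else 0
  have hρ : ∀ X : (Σ a : A, Finset (Fin (R a))) → ℝ, ∑ z, ρ z * X z =
      ∑ l, κ l * ∑ i ∈ Finset.range (R (j l)), x l i * X ⟨j l, B l i⟩ := by
    intro X
    simp only [ρ, Finset.sum_mul]
    rw [Finset.sum_comm]
    refine Finset.sum_congr rfl fun l _ => ?_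
    rw [Finset.sum_comm, Finset.mul_sum]
    refine Finset.sum_congr rfl fun i _ => ?_
    simp only [ite_mul, zero_mul, Finset.sum_ite_eq', Finset.mem_univ, if_true]
    ring
  obtain ⟨U, hU⟩ := hU ρ
  let ev : V →ₗ[k] MvPolynomial (Fin (N + 1)) k ⧸ I' := (Ideal.Quotient.factorₐ k hI').toLinearMap ∘ₗ V.subtype
  have hev : ∀ (v : V) (z : MvPolynomial (Fin (N + 1)) k), Ideal.Quotient.mk I z = v.1 → ev v = Ideal.Quotient.mk I' z := by
    intro v z hz
    show Ideal.Quotient.factorₐ k hI' v.1 = _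
    rw [← hz]
    rfl
  obtain ⟨hpos, hmain⟩ := hU ev (fun q hq h => by
    refine hQI' _ (Finset.mem_image_of_mem ℓ hq) ?_
    rw [hev q _ (hℓ q)] at h
    exact Ideal.Quotient.eq_zero_iff_mem.1 h)
  have hBe' := fun l => hBe l U ev
  choose n e₀ σ heU heI heS hσ hσs using hBe'
  have hl2 : ∀ l i, ∃ z ∈ Submodule.span k {z | ∃ t, z = p (j l) t ∧ σ l i ≤ s l t}, Ideal.Quotient.mk I z = (e₀ l i).1 := by
    intro l i
    have h1 : (e₀ l i).1 ∈ (Submodule.span k {z | ∃ t, z = p' (j l) t ∧ σ l i ≤ s l t}).map V.subtype := ⟨_, heS l i, rfl⟩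
    have h2 : (Submodule.span k {z | ∃ t, z = p' (j l) t ∧ σ l i ≤ s l t}).map V.subtype ≤
        (Submodule.span k {z | ∃ t, z = p (j l) t ∧ σ l i ≤ s l t}).map (Ideal.Quotient.mkₐ k I).toLinearMap := by
      rw [Submodule.map_span, Submodule.map_span]
      refine Submodule.span_mono ?_
      rintro _ ⟨_, ⟨t, rfl, ht⟩, rfl⟩
      exact ⟨p (j l) t, ⟨t, rfl, ht⟩, rfl⟩
    obtain ⟨z, hz, hz'⟩ := h2 h1
    exact ⟨z, hz, hz'⟩
  choose e he hee using hl2
  have heh : ∀ l i, (e l i).IsHomogeneous δ := by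
    intro l i
    have h1 : Submodule.span k {z | ∃ t, z = p (j l) t ∧ σ l i ≤ s l t} ≤ homogeneousSubmodule (Fin (N + 1)) k δ := by
      rw [Submodule.span_le]
      rintro _ ⟨t, rfl, -⟩
      exact hp _ t
    exact h1 (he l i)
  have hev' : ∀ l i, ev (e₀ l i) = Ideal.Quotient.mk I' (e l i) := fun l i => hev _ _ (hee l i)
  refine ⟨U.map ev, ?_, hpos, n, e, σ, heh, fun l i => ?_, fun l => ?_, he, hσ, ?_⟩
  · rintro _ ⟨v, -, rfl⟩
    rw [hev v _ (hℓ v)]
    exact mem_HQ (hℓh v)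
  · rw [← hev']
    exact Submodule.mem_map_of_mem (heU l i)
  · have h1 := heI l
    simp only [hev'] at h1
    exact h1
  · rw [hρ, hρ] at hmain
    have h1 : ∀ l, ∑ i ∈ Finset.range (R (j l)), x l i * (finrank k (W ⟨j l, B l i⟩) : ℝ) = ∑ t, s l t := hBs
    have h2 : ∀ l, ∑ i ∈ Finset.range (R (j l)), x l i * (finrank k ((U ⊓ W ⟨j l, B l i⟩).map ev) : ℝ) = ∑ i, σ l i :=
      fun l => (hσs l).symm
    simp only [h1, h2] at hmain
    exact hmain

end

end Pool.Agent.ZS
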