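import Pool.Agent.Helper68.ZS.COI

/-!
# The two inequalities along the ultrafilter
-/

set_option autoImplicit false
set_option linter.unusedSectionVars false

namespace Pool.Agent.SQ

open NumberField Filter Module MvPolynomial
open Pool.Agent.Helper64.Vojta (Pl nv sn above)
open Pool.Agent.V2
open Pool.Agent.Chart (fld dg crd hgt)

universe u

section

variable {k : Type u} [Field k] [NumberField k] {G : Type} [Group G] [Fintype G]

/-- the limits exist -/
private theorem lim68 (D : SqG k G) (F : ℕ → ℝ) : ∃ L : ℝ, (∃ C : ℝ, ∀ a, -C ≤ F a) →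
    (∃ K : ℝ, ∀ᶠ a in (D.U : Filter ℕ), F a ≤ K * D.H a) → 0 ≤ L ∧ LB D F L ∧ UB D F L := by
  by_cases h : (∃ C : ℝ, ∀ a, -C ≤ F a) ∧ ∃ K : ℝ, ∀ᶠ a in (D.U : Filter ℕ), F a ≤ K * D.H a
  swap
  · exact ⟨0, fun h1 h2 => absurd ⟨h1, h2⟩ h⟩
  obtain ⟨⟨C, hC⟩, K, hK⟩ := h
  have h0 : ∀ᶠ a in (D.U : Filter ℕ), 0 ≤ max 0 (F a) / D.H a ∧ max 0 (F a) / D.H a ≤ max 0 K := by
    filter_upwards [hK, D.H1.eventually_gt_atTop 0] with a h1 h2
    refine ⟨div_nonneg (le_max_left _ _) h2.le, ?_⟩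
    rw [div_le_iff₀ h2]
    refine max_le (mul_nonneg (le_max_left _ _) h2.le) (h1.trans ?_)
    exact mul_le_mul_of_nonneg_right (le_max_right _ _) h2.le
  have h1 : (Ultrafilter.map (fun a => max 0 (F a) / D.H a) D.U : Filter ℝ) ≤ Filter.principal (Set.Icc 0 (max 0 K)) := by
    rw [Ultrafilter.coe_map, le_principal_iff, mem_map]
    exact h0
  obtain ⟨L, hL, h2⟩ := isCompact_Icc.ultrafilter_le_nhds (Ultrafilter.map (fun a => max 0 (F a) / D.H a) D.U) h1
  have hT : Tendsto (fun a => max 0 (F a) / D.H a) (D.U : Filter ℕ) (nhds L) := h2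
  have hclose : ∀ η : ℝ, 0 < η → ∀ᶠ a in (D.U : Filter ℕ), (L - η) * D.H a ≤ max 0 (F a) ∧ max 0 (F a) ≤ (L + η) * D.H a := by
    intro η hη
    filter_upwards [hT.eventually (Metric.ball_mem_nhds L hη), D.H1.eventually_gt_atTop 0] with a h3 h4
    rw [Real.dist_eq, abs_lt] at h3
    constructor
    · rw [← le_div_iff₀ h4]
      linarith
    · rw [← div_le_iff₀ h4]
      linarith
  refine ⟨L, fun _ _ => ⟨hL.1, fun η hη => ?_, fun η hη => ?_⟩⟩
  · filter_upwards [hclose (η / 2) (half_pos hη), D.H1.eventually_ge_atTop (max 0 C / (η / 2))] with a h3 h4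
    rw [div_le_iff₀ (half_pos hη)] at h4
    have h5 : max 0 (F a) ≤ F a + max 0 C := by
      rcases max_cases 0 (F a) with ⟨h, _⟩ | ⟨h, _⟩ <;> rw [h]
      · have := hC a
        have := le_max_right 0 C
        linarith
      · have := le_max_left 0 C
        linarith
    have h6 : (L - η) * D.H a = (L - η / 2) * D.H a - D.H a * (η / 2) := by ring
    rw [h6]
    linarith [h3.1]
  · filter_upwards [hclose η hη] with a h3
    exact (le_max_right _ _).trans h3.2

/-- the local values are bounded by the height -/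
private theorem up68 {N d : ℕ} {D : SqG k G} (y : ∀ a, Fin (N + 1) → D.L a) (hy : Ptg D y)
    (f : MvPolynomial (Fin (N + 1)) k) (hf : f.IsHomogeneous d) (hyf : ∀ a, aeval (y a) f ≠ 0) (v : Pl k) (g : G) :
    (∃ C : ℝ, ∀ a, -C ≤ gam (D.s a) (D.N a) (y a) d f v g) ∧
    ∃ K : ℝ, ∀ᶠ a in (D.U : Filter ℕ), gam (D.s a) (D.N a) (y a) d f v g ≤ K * D.H a := by
  obtain ⟨C2, hC2, h2⟩ := gam_ge G f hf {v}
  obtain ⟨C1, h1⟩ := gam_sum G f hf {v}
  have hlow : ∀ a g, -C2 ≤ gam (D.s a) (D.N a) (y a) d f v g := fun a g =>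
    h2 (D.L a) (D.s a) (D.N a) (D.qs a) (y a) (hyf a) v (Finset.mem_singleton_self v) g
  refine ⟨⟨C2, fun a => hlow a g⟩, d + 1, ?_⟩
  filter_upwards [D.H1.eventually_ge_atTop (C1 + Fintype.card G * C2)] with a ha
  have h3 := h1 (D.L a) (D.s a) (D.N a) (D.qs a) (y a) (hy.1 a) (hyf a)
  rw [← hy.2 a, Finset.sum_singleton] at h3
  have h5 : gam (D.s a) (D.N a) (y a) d f v g + C2 ≤ ∑ g, (gam (D.s a) (D.N a) (y a) d f v g + C2) :=
    Finset.single_le_sum (f := fun g => gam (D.s a) (D.N a) (y a) d f v g + C2)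
      (fun g _ => by linarith [hlow a g]) (Finset.mem_univ g)
  rw [Finset.sum_add_distrib, Finset.sum_const, Finset.card_univ, nsmul_eq_mul] at h5
  linarith

private theorem ub_zero {D : SqG k G} : UB D (fun _ => 0) 0 := by
  intro η hη
  filter_upwards [D.H1.eventually_gt_atTop 0] with a h
  rw [zero_add]
  exact (mul_pos hη h).le

private theorem ub_add {D : SqG k G} {F F' : ℕ → ℝ} {L L' : ℝ} (h : UB D F L) (h' : UB D F' L') :
    UB D (fun a => F a + F' a) (L + L') := by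
  intro η hη
  filter_upwards [h (η / 2) (half_pos hη), h' (η / 2) (half_pos hη)] with a h1 h2
  have h3 : (L + L' + η) * D.H a = (L + η / 2) * D.H a + (L' + η / 2) * D.H a := by ring
  rw [h3]
  exact add_le_add h1 h2

private theorem ub_sum {D : SqG k G} {ι : Type*} (s : Finset ι) (F : ι → ℕ → ℝ) (L : ι → ℝ) (h : ∀ i ∈ s, UB D (F i) (L i)) :
    UB D (fun a => ∑ i ∈ s, F i a) (∑ i ∈ s, L i) := by
  classical
  induction s using Finset.induction_on with
  | empty =>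
    simp only [Finset.sum_empty]
    exact ub_zero
  | insert i s hi ih =>
    simp only [Finset.sum_insert hi]
    exact ub_add (h i (Finset.mem_insert_self _ _)) (ih fun j hj => h j (Finset.mem_insert_of_mem hj))

private theorem ub_mul {D : SqG k G} {F : ℕ → ℝ} {L c : ℝ} (hc : 0 ≤ c) (h : UB D F L) : UB D (fun a => c * F a) (c * L) := by
  rcases hc.eq_or_lt with rfl | hc
  · simp only [zero_mul]
    exact ub_zero
  · intro η hη
    filter_upwards [h (η / c) (div_pos hη hc)] with a h1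
    have h2 : (c * L + η) * D.H a = c * ((L + η / c) * D.H a) := by
      field_simp
    rw [h2]
    exact mul_le_mul_of_nonneg_left h1 hc.le

end

/-- **The inequalities along the ultrafilter.** The exceptional form `Q` is chosen first; `n'` is the index of `Hs`; types:
`0` potentials, `1` one place, `2` decomposition group. -/
theorem core_e {k : Type u} [Field k] [NumberField k] {N n d q : ℕ} (hd : 0 < d) (I : Ideal (MvPolynomial (Fin (N + 1)) k))
    [hIp : I.IsPrime] (hI : ∀ p ∈ I, ∀ m, homogeneousComponent m p ∈ I)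
    (hdim : Algebra.trdeg k (MvPolynomial (Fin (N + 1)) k ⧸ I) = n + 1)
    (f : Fin q → MvPolynomial (Fin (N + 1)) k) (hf : ∀ i, (f i).IsHomogeneous d) {θ : ℝ} (hθ : 0 ≤ θ) (hθ1 : θ ≤ 1)
    {r : ℕ} (hr : 0 < r) (hA : 0 < Eq n θ - (1 - 1 / (r : ℝ)) * θ) {ε : ℝ} (hε : 0 < ε) :
    ∃ Q : MvPolynomial (Fin (N + 1)) k, Q ∉ I ∧ (∃ e, Q.IsHomogeneous e) ∧
      ∀ {G : Type} [Group G] [Fintype G] {D : SqG k G} (y : ∀ a, Fin (N + 1) → D.L a), Ptg D y →
        (∀ a, ∀ p ∈ I, aeval (y a) p = 0) → (∀ a, aeval (y a) Q ≠ 0) →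
        ∀ (S : Finset (Pl k)) (T0 : Pl k → Finset (Fin q)), (∀ v ∈ S, n + 1 ≤ (T0 v).card) →
        (∀ v ∈ S, ∀ J ⊆ T0 v, J.card = n + 1 → ∀ x : Fin (N + 1) → AlgebraicClosure k, (∀ p ∈ I, aeval x p = 0) →
          (∀ i ∈ J, aeval x (f i) = 0) → x = 0) → (∀ a, ∀ v ∈ S, ∀ i ∈ T0 v, aeval (y a) (f i) ≠ 0) →
        (∀ (Hs : Subgroup G), (∀ a, ∀ h ∈ Hs, ∀ j, D.s a h (y a j) = y a j) → ∀ (Cv Dv : Pl k → Finset G),
          (∀ a, ∀ v ∈ S, ∀ g ∈ Cv v, ∀ z : D.L a, (∀ h ∈ Hs, D.s a h z = z) → D.N a v (D.s a g z) = D.N a v z) →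
          (∀ a, ∀ v ∈ S, ∀ u ∈ Dv v, ∀ (g : G) (z : D.L a), (∀ h ∈ Hs, D.s a h z = z) →
            D.N a v (D.s a (u * g) z) = D.N a v (D.s a g z)) →
          ∀ {n' : ℕ}, 0 < n' → n' ≤ r → ∀ (ρ : Fin n' → G), (∀ g, ∃! j, (ρ j)⁻¹ * g ∈ Hs) → ∀ ty : Pl k → Fin 3,
          ∀ᶠ a in (D.U : Filter ℕ), ∑ v ∈ S,
            (if ty v = 0 then (Fintype.card G : ℝ) ^ 2 * ((Eq n θ - (1 - 1 / (n' : ℝ)) * θ) *
                ∑ j, ∑ i ∈ T0 v, gam (D.s a) (D.N a) (y a) d (f i) v (ρ j))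
              else if ty v = 1 then (Cv v).card * Nat.card Hs / (n + 1) *
                ∑ i ∈ T0 v, gam (D.s a) (D.N a) (y a) d (f i) v 1
              else (Dv v).card / (n + 1) * ∑ g, ∑ i ∈ T0 v, gam (D.s a) (D.N a) (y a) d (f i) v g) ≤
            Fintype.card G * (d + ε) * D.H a) ∧
        (∀ (H : Subgroup G), H.IsSubnormal → (∀ n, ∀ h ∈ H, ∀ j, D.s n h (y n j) = y n j) →
          ∀ᶠ a in (D.U : Filter ℕ), ∑ v ∈ S, ∑ g, ∑ i ∈ T0 v, gam (D.s a) (D.N a) (y a) d (f i) v g ≤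
            H.index * (n + 1) * (d + ε) * D.H a) := by
  classical
  have hd' : (0 : ℝ) < d := by exact_mod_cast hd
  have hn1 : (0 : ℝ) < n + 1 := by positivity
  obtain ⟨u, hu⟩ : ∃ u : ℝ, u = d / (d + ε / 2) := ⟨_, rfl⟩
  have hu0 : 0 < u := by
    rw [hu]
    positivity
  have hu1 : u < 1 := by
    rw [hu, div_lt_one (by positivity)]
    linarith
  have hud : u * (d + ε / 2) = d := by
    rw [hu]
    field_simp
  obtain ⟨A₀, hA₀⟩ : ∃ A₀ : ℝ, A₀ = Eq n θ - (1 - 1 / (r : ℝ)) * θ := ⟨_, rfl⟩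
  rw [← hA₀] at hA
  have hEθ := FinQ.Eq_le (n := n) hθ hθ1
  have hE0 := FinQ.Eq_nonneg (n := n) hθ hθ1
  have hinv1 : 1 / (r : ℝ) ≤ 1 := by
    rw [div_le_one (by exact_mod_cast hr)]
    exact_mod_cast hr
  have hA1 : A₀ ≤ 1 := by
    have : 0 ≤ (1 - 1 / (r : ℝ)) * θ := mul_nonneg (by linarith) hθ
    linarith
  obtain ⟨ε₁, hε₁⟩ : ∃ ε₁ : ℝ, ε₁ = (1 - u) * A₀ := ⟨_, rfl⟩
  have hε₁0 : 0 < ε₁ := by
    rw [hε₁]
    exact mul_pos (by linarith) hA
  have hε₁1 : u ≤ 1 - ε₁ := by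
    have : (1 - u) * A₀ ≤ (1 - u) * 1 := mul_le_mul_of_nonneg_left hA1 (by linarith)
    linarith
  obtain ⟨Q, hQ, hQh, hcore⟩ := core_i hd I hI hdim f hf hθ hθ1 hε₁0
  refine ⟨Q, hQ, hQh, ?_⟩
  intro G _ _ D y hy hyI hyQ S T0 hT0 hgp hyf
  choose Lf hLf using fun F => lim68 D F
  obtain ⟨L, hLd⟩ : ∃ L : Pl k → G → Fin q → ℝ, L = fun v g i => Lf fun a => gam (D.s a) (D.N a) (y a) d (f i) v g := ⟨_, rfl⟩
  have hL3 : ∀ v ∈ S, ∀ g, ∀ i ∈ T0 v, 0 ≤ L v g i ∧ LB D (fun a => gam (D.s a) (D.N a) (y a) d (f i) v g) (L v g i) ∧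
      UB D (fun a => gam (D.s a) (D.N a) (y a) d (f i) v g) (L v g i) := by
    intro v hv g i hi
    obtain ⟨h1, h2⟩ := up68 y hy (f i) (hf i) (fun a => hyf a v hv i hi) v g
    rw [hLd]
    exact hLf _ h1 h2
  obtain ⟨Λ, hΛ⟩ : ∃ Λ : Pl k → G → ℝ, Λ = fun v g => ∑ i ∈ T0 v, L v g i := ⟨_, rfl⟩
  have hΛ0 : ∀ v ∈ S, ∀ g, 0 ≤ Λ v g := by
    intro v hv g
    rw [hΛ]
    exact Finset.sum_nonneg fun i hi => (hL3 v hv g i hi).1
  have hΛu : ∀ v ∈ S, ∀ g, UB D (fun a => ∑ i ∈ T0 v, gam (D.s a) (D.N a) (y a) d (f i) v g) (Λ v g) := by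
    intro v hv g
    rw [hΛ]
    exact ub_sum _ _ _ fun i hi => (hL3 v hv g i hi).2.2
  obtain ⟨h1, h2⟩ := hcore y hy hyI hyQ S T0 hT0 hgp hyf L (fun v hv g i hi => (hL3 v hv g i hi).1)
    (fun v hv g i hi => (hL3 v hv g i hi).2.1)
  have hc0 : (0 : ℝ) < Fintype.card G := by exact_mod_cast Fintype.card_pos
  refine ⟨?_, ?_⟩
  · intro Hs hH Cv Dv hCv hDv r' hr' hr'r ρ hρ ty
    have hr'0 : (0 : ℝ) < r' := by exact_mod_cast hr'
    obtain ⟨A', hA'⟩ : ∃ A' : ℝ, A' = Eq n θ - (1 - 1 / (r' : ℝ)) * θ := ⟨_, rfl⟩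
    have hAA : A₀ ≤ A' := by
      have h3 : 1 / (r : ℝ) ≤ 1 / (r' : ℝ) := one_div_le_one_div_of_le hr'0 (by exact_mod_cast hr'r)
      have h4 := mul_le_mul_of_nonneg_right h3 hθ
      rw [hA₀, hA']
      linarith
    have hA'u : u * A' ≤ (1 - ε₁) * Eq n θ - (1 - 1 / (r' : ℝ)) * θ := by
      have h3 : ε₁ * Eq n θ ≤ ε₁ := by
        have := mul_le_mul_of_nonneg_left (hEθ.trans hθ1) hε₁0.le
        linarith
      have h4 : ε₁ ≤ (1 - u) * A' := by
        rw [hε₁]
        exact mul_le_mul_of_nonneg_left hAA (by linarith)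
      have h5 : (1 - ε₁) * Eq n θ - (1 - 1 / (r' : ℝ)) * θ = A' - ε₁ * Eq n θ := by
        rw [hA']
        ring
      rw [h5]
      linarith
    have hN := h1 Hs hH (fun v => ty v ≠ 0) (fun v => if ty v = 1 then Cv v else Dv v)
      (fun v => if ty v = 1 then Finset.univ.filter fun g => g ∈ Hs else Finset.univ) (by
      intro a v hv hl u hu g hg z hz
      by_cases h1 : ty v = 1
      · have hu' : u ∈ Cv v := by simpa only [if_pos h1] using hu
        have hg' : g ∈ Hs := by simpa only [if_pos h1, Finset.mem_filter, Finset.mem_univ, true_and] using hg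
        have e1 : D.s a (u * g) z = D.s a u z := by
          rw [map_mul]
          show D.s a u (D.s a g z) = _
          rw [hz g hg']
        rw [e1, hz g hg']
        exact hCv a v hv u hu' z hz
      · have hu' : u ∈ Dv v := by simpa only [if_neg h1] using hu
        exact hDv a v hv u hu' g z hz) ρ hρ
    obtain ⟨X, hX⟩ : ∃ X : ℝ, X = ∑ v ∈ S, (if ty v = 0 then (Fintype.card G : ℝ) ^ 2 * (A' * ∑ j, Λ v (ρ j))
        else if ty v = 1 then (Cv v).card * Nat.card Hs / (n + 1) * Λ v 1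
        else (Dv v).card / (n + 1) * ∑ g, Λ v g) := ⟨_, rfl⟩
    have hub : UB D (fun a => ∑ v ∈ S, (if ty v = 0 then (Fintype.card G : ℝ) ^ 2 * (A' *
                ∑ j, ∑ i ∈ T0 v, gam (D.s a) (D.N a) (y a) d (f i) v (ρ j))
              else if ty v = 1 then (Cv v).card * Nat.card Hs / (n + 1) *
                ∑ i ∈ T0 v, gam (D.s a) (D.N a) (y a) d (f i) v 1
              else (Dv v).card / (n + 1) * ∑ g, ∑ i ∈ T0 v, gam (D.s a) (D.N a) (y a) d (f i) v g)) X := by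
      rw [hX]
      refine ub_sum _ _ _ fun v hv => ?_
      by_cases h0 : ty v = 0
      · simp only [h0, if_true]
        exact ub_mul (by positivity) (ub_mul (hA.le.trans hAA) (ub_sum _ _ _ fun j _ => hΛu v hv (ρ j)))
      · by_cases h1 : ty v = 1
        · simp only [h1, one_ne_zero, if_false, if_true]
          exact ub_mul (by positivity) (hΛu v hv 1)
        · simp only [h0, h1, if_false]
          exact ub_mul (by positivity) (ub_sum _ _ _ fun g _ => hΛu v hv g)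
    have hXN : u * X ≤ Fintype.card G * d := by
      refine le_trans ?_ hN
      rw [hX, Finset.mul_sum]
      refine Finset.sum_le_sum fun v hv => ?_
      have hΛv : ∀ g, ∑ i ∈ T0 v, L v g i = Λ v g := fun g => by rw [hΛ]
      simp only [hΛv]
      by_cases h0 : ty v = 0
      · rw [if_pos h0, if_neg (show ¬ ty v ≠ 0 from fun h => h h0), ← Finset.mul_sum]
        have h3 : 0 ≤ ∑ j, Λ v (ρ j) := Finset.sum_nonneg fun j _ => hΛ0 v hv _
        have h4 := mul_le_mul_of_nonneg_left (mul_le_mul_of_nonneg_right hA'u h3) (sq_nonneg (Fintype.card G : ℝ))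
        refine le_trans (le_of_eq ?_) h4
        ring
      · rw [if_neg h0, if_pos h0, FinQ.Eq_one]
        by_cases h1 : ty v = 1
        · have e3 : ∑ g ∈ (if ty v = 1 then Finset.univ.filter fun g => g ∈ Hs else Finset.univ),
              (1 - ε₁) * (1 / ((n : ℝ) + 1)) * Λ v g = Nat.card Hs * ((1 - ε₁) * (1 / ((n : ℝ) + 1)) * Λ v 1) := by
            rw [if_pos h1]
            have e4 : ∀ g ∈ Finset.univ.filter (fun g => g ∈ Hs), (1 - ε₁) * (1 / ((n : ℝ) + 1)) * Λ v g =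
                (1 - ε₁) * (1 / ((n : ℝ) + 1)) * Λ v 1 := by
              intro g hg
              have hg' : g ∈ Hs := (Finset.mem_filter.1 hg).2
              congr 1
              rw [hΛ]
              refine Finset.sum_congr rfl fun i _ => ?_
              rw [hLd]
              show Lf _ = Lf _
              congr 1
              funext a
              have h6 := gam_mul (s := D.s a) (M := D.N a) (y := y a) (d := d) (f := f i) (v := v) (hH a) hg' 1
              rwa [one_mul] at h6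
            rw [Finset.sum_congr rfl e4, Finset.sum_const, nsmul_eq_mul, Nat.card_eq_fintype_card, Fintype.card_subtype]
          rw [if_pos h1, e3, if_pos h1]
          have h5 : 0 ≤ ((Cv v).card : ℝ) * (Nat.card Hs * ((1 / ((n : ℝ) + 1)) * Λ v 1)) := by
            exact mul_nonneg (Nat.cast_nonneg _) (mul_nonneg (Nat.cast_nonneg _)
              (mul_nonneg (one_div_nonneg.2 hn1.le) (hΛ0 v hv 1)))
          have h6 := mul_le_mul_of_nonneg_right hε₁1 h5
          refine le_trans (le_of_eq ?_) (h6.trans (le_of_eq ?_)) <;> ring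
        · rw [if_neg h1, if_neg h1, if_neg h1, ← Finset.mul_sum]
          have h5 : 0 ≤ ((Dv v).card : ℝ) * ((1 / ((n : ℝ) + 1)) * ∑ g, Λ v g) := by
            exact mul_nonneg (Nat.cast_nonneg _) (mul_nonneg (one_div_nonneg.2 hn1.le)
              (Finset.sum_nonneg fun g _ => hΛ0 v hv g))
          have h6 := mul_le_mul_of_nonneg_right hε₁1 h5
          refine le_trans (le_of_eq ?_) (h6.trans (le_of_eq ?_)) <;> ring
    have hXc : X ≤ Fintype.card G * (d + ε / 2) := by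
      refine le_of_mul_le_mul_left (hXN.trans (le_of_eq ?_)) hu0
      rw [mul_left_comm, hud]
    rw [← hA']
    filter_upwards [hub (Fintype.card G * (ε / 2)) (by positivity), D.H1.eventually_gt_atTop 0] with a h3 h4
    refine h3.trans (mul_le_mul_of_nonneg_right ?_ h4.le)
    linarith
  · intro H hHs hxH
    have hi0 : (0 : ℝ) < H.index := by
      exact_mod_cast Nat.pos_of_ne_zero Subgroup.FiniteIndex.index_ne_zero
    have hN := h2 H hHs hxH
    have hub : UB D (fun a => ∑ v ∈ S, ∑ g, ∑ i ∈ T0 v, gam (D.s a) (D.N a) (y a) d (f i) v g) (∑ v ∈ S, ∑ g, Λ v g) :=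
      ub_sum _ _ _ fun v hv => ub_sum _ _ _ fun g _ => hΛu v hv g
    have hΛv : ∀ v g, ∑ i ∈ T0 v, L v g i = Λ v g := fun v g => by rw [hΛ]
    simp only [hΛv, FinQ.Eq_one, ← Finset.mul_sum] at hN
    obtain ⟨X, hX⟩ : ∃ X : ℝ, X = ∑ v ∈ S, ∑ g, Λ v g := ⟨_, rfl⟩
    have hX0 : 0 ≤ X := by
      rw [hX]
      exact Finset.sum_nonneg fun v hv => Finset.sum_nonneg fun g _ => hΛ0 v hv g
    rw [← hX] at hN hub
    have hXc : X ≤ H.index * (n + 1) * (d + ε / 2) := by
      have h3 : u * (1 / ((n : ℝ) + 1)) * X ≤ H.index * d :=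
        le_trans (mul_le_mul_of_nonneg_right (mul_le_mul_of_nonneg_right hε₁1 (by positivity)) hX0) hN
      have h4 : u * X ≤ H.index * d * (n + 1) := by
        rw [← div_le_iff₀ hn1]
        refine le_trans (le_of_eq ?_) h3
        ring
      refine le_of_mul_le_mul_left (h4.trans (le_of_eq ?_)) hu0
      rw [mul_left_comm, hud]
      ring
    filter_upwards [hub (H.index * (n + 1) * (ε / 2)) (by positivity), D.H1.eventually_gt_atTop 0] with a h3 h4
    refine h3.trans (mul_le_mul_of_nonneg_right ?_ h4.le)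
    linarith

end Pool.Agent.SQ
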