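import Pool.Agent.Helper68.ZS.COR

/-!
# The two inequalities for the limits of the local values
-/

set_option autoImplicit false
set_option linter.unusedSectionVars false

namespace Pool.Agent.SQ

open NumberField Filter Module MvPolynomial
open Pool.Agent.Helper64.Vojta (Pl nv sn above)
open Pool.Agent.V2
open Pool.Agent.Chart (fld dg crd hgt)
open Pool.Agent.ZS (HQ mem_HQ)

universe u

variable {k : Type u} [Field k] [NumberField k]

/-- the sum over the index set -/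
private theorem ksum {G : Type} [Fintype G] [DecidableEq G] {P : Type u} (S : Finset P) {r : ℕ} (lin : P → Prop) [DecidablePred lin]
    (T : P → Finset G) (a : P → ℝ) (c : ℝ) (F : ↥S × (G ⊕ Fin r) → ℝ) :
    ∑ l : ↥S × (G ⊕ Fin r), (Sum.elim (fun g => if lin l.1 ∧ g ∈ T l.1 then a l.1 else 0)
      (fun _ => if lin l.1 then 0 else c) l.2) * F l =
      ∑ v : S, if lin v then a v * ∑ g ∈ T v, F (v, Sum.inl g) else c * ∑ j, F (v, Sum.inr j) := by
  rw [Fintype.sum_prod_type]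
  refine Finset.sum_congr rfl fun v _ => ?_
  rw [Fintype.sum_sum_type]
  simp only [Sum.elim_inl, Sum.elim_inr]
  by_cases hv : lin v
  · simp only [hv, true_and, if_true, zero_mul, Finset.sum_const_zero, add_zero, ite_mul]
    rw [Finset.mul_sum, ← Finset.sum_filter]
    refine Finset.sum_congr ?_ fun _ _ => rfl
    ext g
    simp
  · simp only [hv, false_and, if_false, zero_mul, Finset.sum_const_zero, zero_add]
    rw [Finset.mul_sum]

/-- **The inequalities.** The exceptional form `Q` is chosen first. -/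
theorem core_i {N n d q : ℕ} (hd : 0 < d) (I : Ideal (MvPolynomial (Fin (N + 1)) k)) [hIp : I.IsPrime]
    (hI : ∀ p ∈ I, ∀ m, homogeneousComponent m p ∈ I)
    (hdim : Algebra.trdeg k (MvPolynomial (Fin (N + 1)) k ⧸ I) = n + 1)
    (f : Fin q → MvPolynomial (Fin (N + 1)) k) (hf : ∀ i, (f i).IsHomogeneous d) {θ : ℝ} (hθ : 0 ≤ θ) (hθ1 : θ ≤ 1)
    {ε : ℝ} (hε : 0 < ε) :
    ∃ Q : MvPolynomial (Fin (N + 1)) k, Q ∉ I ∧ (∃ e, Q.IsHomogeneous e) ∧
      ∀ {G : Type} [Group G] [Fintype G] {D : SqG k G} (y : ∀ a, Fin (N + 1) → D.L a), Ptg D y →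
        (∀ a, ∀ p ∈ I, aeval (y a) p = 0) → (∀ a, aeval (y a) Q ≠ 0) →
        ∀ (S : Finset (Pl k)) (T0 : Pl k → Finset (Fin q)), (∀ v ∈ S, n + 1 ≤ (T0 v).card) →
        (∀ v ∈ S, ∀ J ⊆ T0 v, J.card = n + 1 → ∀ x : Fin (N + 1) → AlgebraicClosure k, (∀ p ∈ I, aeval x p = 0) →
          (∀ i ∈ J, aeval x (f i) = 0) → x = 0) → (∀ a, ∀ v ∈ S, ∀ i ∈ T0 v, aeval (y a) (f i) ≠ 0) →
        ∀ (L : Pl k → G → Fin q → ℝ), (∀ v ∈ S, ∀ g, ∀ i ∈ T0 v, 0 ≤ L v g i) →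
        (∀ v ∈ S, ∀ g, ∀ i ∈ T0 v, LB D (fun a => gam (D.s a) (D.N a) (y a) d (f i) v g) (L v g i)) →
        (∀ (Hs : Subgroup G), (∀ a, ∀ h ∈ Hs, ∀ j, D.s a h (y a j) = y a j) →
          ∀ (lin : Pl k → Prop) [DecidablePred lin] (Gd T : Pl k → Finset G),
          (∀ a, ∀ v ∈ S, lin v → ∀ u ∈ Gd v, ∀ g ∈ T v, ∀ z : D.L a, (∀ h ∈ Hs, D.s a h z = z) →
            D.N a v (D.s a (u * g) z) = D.N a v (D.s a g z)) →
          ∀ {r : ℕ} (ρ : Fin r → G), (∀ g, ∃! j, (ρ j)⁻¹ * g ∈ Hs) →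
          ∑ v ∈ S, (if lin v then ((Gd v).card : ℝ) * ∑ g ∈ T v, ((1 - ε) * Eq n 1 * ∑ i ∈ T0 v, L v g i) else
            (Fintype.card G : ℝ) ^ 2 * ∑ j, (((1 - ε) * Eq n θ - (1 - 1 / (r : ℝ)) * θ) * ∑ i ∈ T0 v, L v (ρ j) i)) ≤
            Fintype.card G * d) ∧
        (∀ (H : Subgroup G), H.IsSubnormal → (∀ n, ∀ h ∈ H, ∀ j, D.s n h (y n j) = y n j) →
          ∑ v ∈ S, ∑ g, ((1 - ε) * Eq n 1 * ∑ i ∈ T0 v, L v g i) ≤ H.index * d) := by
  classical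
  obtain ⟨m, Q, hm, hQ, hQh, hcore⟩ := core0 hd I hI hdim f hf hθ hθ1 hε
  refine ⟨Q, hQ, hQh, ?_⟩
  intro G _ _ D y hy hyI hyQ S T0 hT0 hgp hyf L hL0 hL
  have hδ : 0 < d * m := Nat.mul_pos hd hm
  have hmR : (0 : ℝ) < m := by exact_mod_cast hm
  refine ⟨?_, ?_⟩
  · intro Hs hH lin _ Gd T hC r ρ hρ
    obtain ⟨V', hV', hpos, R, e, σ, heh, heV, heI, heS, hσB, hmain⟩ := hcore y hy hyI hyQ
      (Λ := ↥S × (G ⊕ Fin r)) (fun l => T0 l.1) (fun l => hT0 _ l.1.2) (fun l => hgp _ l.1.2) (fun a l => hyf a _ l.1.2)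
      (fun l => l.1) (fun l => Sum.elim id ρ l.2) (fun l => l.2.isLeft) (fun l => L l.1 (Sum.elim id ρ l.2))
      (fun l => hL0 _ l.1.2 _) (fun l => hL _ l.1.2 _)
      (fun l => Sum.elim (fun g => if lin l.1 ∧ g ∈ T l.1 then ((Gd l.1).card : ℝ) else 0)
        (fun _ => if lin l.1 then 0 else (Fintype.card G : ℝ) ^ 2) l.2) (fun l => by
        rcases l with ⟨v, g | j⟩
        · show (0 : ℝ) ≤ if lin v ∧ g ∈ T v then ((Gd v).card : ℝ) else 0
          split_ifs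
          · exact Nat.cast_nonneg _
          · exact le_rfl
        · show (0 : ℝ) ≤ if lin v then 0 else (Fintype.card G : ℝ) ^ 2
          split_ifs
          · exact le_rfl
          · positivity)
    have hD0 : (0 : ℝ) < finrank k V' := by exact_mod_cast hpos
    rw [ksum S lin T (fun v => ((Gd v).card : ℝ)) ((Fintype.card G : ℝ) ^ 2),
      ksum S lin T (fun v => ((Gd v).card : ℝ)) ((Fintype.card G : ℝ) ^ 2)] at hmain
    simp only [Sum.isLeft_inl, Sum.isLeft_inr, Sum.elim_inl, Sum.elim_inr, id, if_true, Bool.false_eq_true, if_false] at hmain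
    -- families for all places
    have hf1 : ∀ (v : Pl k) (g : G), ∃ (n : ℕ) (e₁ : Fin n → MvPolynomial (Fin (N + 1)) k) (σ₁ : Fin n → ℝ),
        (∀ i, (e₁ i).IsHomogeneous (d * m)) ∧ ∀ h : v ∈ S, (∀ i, Ideal.Quotient.mk (vanI D y) (e₁ i) ∈ V') ∧
        (LinearIndependent k fun i => Ideal.Quotient.mk (vanI D y) (e₁ i)) ∧
        (∀ i, e₁ i ∈ Submodule.span k {p : MvPolynomial (Fin (N + 1)) k | p.IsHomogeneous (d * m) ∧ (p ∈ vanI D y ∨
              LB D (fun a => gam (D.s a) (D.N a) (y a) (d * m) p v g) (σ₁ i))}) ∧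
        ∑ i, σ₁ i = ∑ i, σ (⟨v, h⟩, Sum.inl g) i := by
      intro v g
      by_cases h : v ∈ S
      · exact ⟨R (⟨v, h⟩, Sum.inl g), e (⟨v, h⟩, Sum.inl g), σ (⟨v, h⟩, Sum.inl g), heh _, fun _ =>
          ⟨heV _, heI _, heS (⟨v, h⟩, Sum.inl g), rfl⟩⟩
      · exact ⟨0, Fin.elim0, Fin.elim0, fun i => i.elim0, fun h' => absurd h' h⟩
    choose n₁ e₁ σ₁ he₁h he₁ using hf1
    have hf2 : ∀ (v : Pl k) (j : Fin r), ∃ (n : ℕ) (e₁ : Fin n → MvPolynomial (Fin (N + 1)) k) (σ₁ : Fin n → ℝ),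
        (∀ i, (e₁ i).IsHomogeneous (d * m)) ∧ ∀ h : v ∈ S, (∀ i, Ideal.Quotient.mk (vanI D y) (e₁ i) ∈ V') ∧
        (LinearIndependent k fun i => Ideal.Quotient.mk (vanI D y) (e₁ i)) ∧
        (∀ i, e₁ i ∈ Submodule.span k {p : MvPolynomial (Fin (N + 1)) k | p.IsHomogeneous (d * m) ∧ (p ∈ vanI D y ∨
              LB D (fun a => gam (D.s a) (D.N a) (y a) (d * m) p v (ρ j)) (σ₁ i))}) ∧
        (∀ i, σ₁ i ≤ m * θ * ∑ i ∈ T0 v, L v (ρ j) i) ∧
        ∑ i, σ₁ i = ∑ i, σ (⟨v, h⟩, Sum.inr j) i := by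
      intro v j
      by_cases h : v ∈ S
      · exact ⟨R (⟨v, h⟩, Sum.inr j), e (⟨v, h⟩, Sum.inr j), σ (⟨v, h⟩, Sum.inr j), heh _, fun _ =>
          ⟨heV _, heI _, heS (⟨v, h⟩, Sum.inr j), fun i => hσB (⟨v, h⟩, Sum.inr j) i rfl, rfl⟩⟩
      · exact ⟨0, Fin.elim0, Fin.elim0, fun i => i.elim0, fun h' => absurd h' h⟩
    choose n₂ e₂ σ₂ he₂h he₂ using hf2
    have hver := ver_mi hδ y hy S Hs hH lin Gd T hC ρ hρ V' hV' n₁ e₁ he₁h (fun v hv g => (he₁ v g hv).2.1)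
      (fun v hv g => (he₁ v g hv).1) σ₁ (fun v hv g => (he₁ v g hv).2.2.1)
      (fun v j => m * θ * ∑ i ∈ T0 v, L v (ρ j) i) (fun v hv j => mul_nonneg (by positivity)
        (Finset.sum_nonneg fun i hi => hL0 v hv _ i hi)) n₂ e₂ he₂h (fun v hv j => (he₂ v j hv).2.1)
      (fun v hv j => (he₂ v j hv).1) σ₂ (fun v hv j => (he₂ v j hv).2.2.1) (fun v hv j => (he₂ v j hv).2.2.2.1)
    rw [← Finset.sum_coe_sort S] at hver ⊢
    -- comparison
    have e1 : ∀ v : S, (if lin v then ((Gd v).card : ℝ) * ∑ g ∈ T v, ∑ i, σ₁ v g i else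
        (Fintype.card G : ℝ) ^ 2 * ∑ j, (∑ i, σ₂ v j i - (1 - 1 / (r : ℝ)) * (m * θ * ∑ i ∈ T0 v, L v (ρ j) i) * finrank k V')) =
        (if lin v then ((Gd v).card : ℝ) * ∑ g ∈ T v, ∑ i, σ (v, Sum.inl g) i else
          (Fintype.card G : ℝ) ^ 2 * ∑ j, ∑ i, σ (v, Sum.inr j) i) -
        finrank k V' * (m * if lin v then 0 else (Fintype.card G : ℝ) ^ 2 * ∑ j, (1 - 1 / (r : ℝ)) * θ * ∑ i ∈ T0 v, L v (ρ j) i) := by
      intro v
      by_cases hv : lin v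
      · rw [if_pos hv, if_pos hv, if_pos hv, mul_zero, mul_zero, sub_zero]
        congr 1
        exact Finset.sum_congr rfl fun g _ => (he₁ v g v.2).2.2.2
      · rw [if_neg hv, if_neg hv, if_neg hv, Finset.sum_sub_distrib, mul_sub]
        congr 1
        · congr 1
          exact Finset.sum_congr rfl fun j _ => (he₂ v j v.2).2.2.2.2
        · have e4 : ∀ j, (1 - 1 / (r : ℝ)) * (m * θ * ∑ i ∈ T0 v, L v (ρ j) i) * finrank k V' =
              finrank k V' * m * ((1 - 1 / (r : ℝ)) * θ * ∑ i ∈ T0 v, L v (ρ j) i) := fun j => by ring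
          rw [Finset.sum_congr rfl fun j _ => e4 j, ← Finset.mul_sum]
          ring
    rw [Finset.sum_congr rfl fun v _ => e1 v, Finset.sum_sub_distrib, ← Finset.mul_sum, ← Finset.mul_sum] at hver
    have e2 : ∀ v : S, (if lin v then ((Gd v).card : ℝ) * ∑ g ∈ T v, ((1 - ε) * Eq n 1 * ∑ i ∈ T0 v, L v g i) else
            (Fintype.card G : ℝ) ^ 2 * ∑ j, (((1 - ε) * Eq n θ - (1 - 1 / (r : ℝ)) * θ) * ∑ i ∈ T0 v, L v (ρ j) i)) =
        (if lin v then ((Gd v).card : ℝ) * ∑ g ∈ T v, ((1 - ε) * Eq n 1 * ∑ i ∈ T0 v, L v g i) else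
          (Fintype.card G : ℝ) ^ 2 * ∑ j, ((1 - ε) * Eq n θ * ∑ i ∈ T0 v, L v (ρ j) i)) -
        (if lin v then 0 else (Fintype.card G : ℝ) ^ 2 * ∑ j, (1 - 1 / (r : ℝ)) * θ * ∑ i ∈ T0 v, L v (ρ j) i) := by
      intro v
      by_cases hv : lin v
      · rw [if_pos hv, if_pos hv, if_pos hv, sub_zero]
      · rw [if_neg hv, if_neg hv, if_neg hv, ← mul_sub, ← Finset.sum_sub_distrib]
        congr 1
        exact Finset.sum_congr rfl fun j _ => by ring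
    rw [Finset.sum_congr rfl fun v _ => e2 v, Finset.sum_sub_distrib]
    refine le_of_mul_le_mul_left ?_ (mul_pos hD0 hmR)
    push_cast at hver
    have e3 : (finrank k V' : ℝ) * m * (Fintype.card G * d) = Fintype.card G * finrank k V' * (d * m) := by ring
    rw [e3, mul_sub, mul_assoc, mul_assoc]
    linarith
  · intro H hHs hxH
    have fq : Fintype (G ⧸ H) := Fintype.ofFinite _
    obtain ⟨V', hV', hpos, R, e, σ, heh, heV, heI, heS, -, hmain⟩ := hcore y hy hyI hyQ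
      (Λ := ↥S × G) (fun l => T0 l.1) (fun l => hT0 _ l.1.2) (fun l => hgp _ l.1.2) (fun a l => hyf a _ l.1.2)
      (fun l => l.1) (fun l => l.2) (fun _ => true) (fun l => L l.1 l.2)
      (fun l => hL0 _ l.1.2 _) (fun l => hL _ l.1.2 _) (fun _ => 1) (fun _ => zero_le_one)
    have hD0 : (0 : ℝ) < finrank k V' := by exact_mod_cast hpos
    simp only [one_mul, if_true] at hmain
    rw [Fintype.sum_prod_type, Fintype.sum_prod_type] at hmain
    have hf1 : ∀ (v : Pl k) (g : G), ∃ (n : ℕ) (e₁ : Fin n → MvPolynomial (Fin (N + 1)) k) (σ₁ : Fin n → ℝ),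
        (∀ i, (e₁ i).IsHomogeneous (d * m)) ∧ ∀ h : v ∈ S, (∀ i, Ideal.Quotient.mk (vanI D y) (e₁ i) ∈ V') ∧
        (LinearIndependent k fun i => Ideal.Quotient.mk (vanI D y) (e₁ i)) ∧
        (∀ i, e₁ i ∈ Submodule.span k {p : MvPolynomial (Fin (N + 1)) k | p.IsHomogeneous (d * m) ∧ (p ∈ vanI D y ∨
              LB D (fun a => gam (D.s a) (D.N a) (y a) (d * m) p v g) (σ₁ i))}) ∧
        ∑ i, σ₁ i = ∑ i, σ (⟨v, h⟩, g) i := by
      intro v g
      by_cases h : v ∈ S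
      · exact ⟨R (⟨v, h⟩, g), e (⟨v, h⟩, g), σ (⟨v, h⟩, g), heh _, fun _ =>
          ⟨heV _, heI _, heS (⟨v, h⟩, g), rfl⟩⟩
      · exact ⟨0, Fin.elim0, Fin.elim0, fun i => i.elim0, fun h' => absurd h' h⟩
    choose n₁ e₁ σ₁ he₁h he₁ using hf1
    have hver := ver_ti hδ y hHs hy hxH S V' hV' n₁ e₁ he₁h (fun v hv g => (he₁ v g hv).2.1)
      (fun v hv g => (he₁ v g hv).1) σ₁ (fun v hv g => (he₁ v g hv).2.2.1)
    rw [← Finset.sum_coe_sort S] at hver ⊢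
    rw [Finset.sum_congr rfl fun (v : S) _ => Finset.sum_congr rfl fun g _ => (he₁ v g v.2).2.2.2] at hver
    refine le_of_mul_le_mul_left ?_ (mul_pos hD0 hmR)
    push_cast at hver
    rw [mul_assoc]
    refine hmain.trans (hver.trans (le_of_eq ?_))
    ring

end Pool.Agent.SQ
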