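import Pool.Agent.Helper68.ZS.VERi
import Pool.Agent.Helper67.SQ4.EFXq
import Pool.Agent.Helper63.SQ5.A

/-!
# The inequality for the limits of the local values, with an exceptional form which is chosen first
-/

set_option autoImplicit false
set_option linter.unusedSectionVars false

namespace Pool.Agent.SQ

open NumberField Filter Module MvPolynomial
open Pool.Agent.Helper64.Vojta (Pl nv sn above)
open Pool.Agent.V2
open Pool.Agent.Chart (fld dg crd hgt)
open Pool.Agent.ZS (HQ mem_HQ)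

universe u

section

variable {k : Type u} [Field k] [NumberField k] {G : Type} [Group G] [Fintype G] {D : SqG k G} {N : ℕ}

/-- asymptotic upper bound -/
def UB (D : SqG k G) (F : ℕ → ℝ) (σ : ℝ) : Prop := ∀ η : ℝ, 0 < η → ∀ᶠ a in (D.U : Filter ℕ), F a ≤ (σ + η) * D.H a

/-- the largest `n` values -/
private theorem top68 {q : ℕ} (A : Fin q → ℝ) (T : Finset (Fin q)) {n : ℕ} (hn : n ≤ T.card) :
    ∃ J ⊆ T, J.card = n ∧ ∀ i ∈ J, ∀ j ∈ T, j ∉ J → A j ≤ A i := by
  classical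
  have hne : (T.powersetCard n).Nonempty := Finset.powersetCard_nonempty.2 hn
  obtain ⟨J, hJ, hmax⟩ := Finset.exists_max_image _ (fun J : Finset (Fin q) => ∑ i ∈ J, A i) hne
  rw [Finset.mem_powersetCard] at hJ
  refine ⟨J, hJ.1, hJ.2, fun i hi j hjT hj => ?_⟩
  have h1 : j ∉ J.erase i := fun h => hj (Finset.mem_of_mem_erase h)
  have h2 := hmax (insert j (J.erase i)) (by
    rw [Finset.mem_powersetCard]
    refine ⟨Finset.insert_subset hjT ((Finset.erase_subset _ _).trans hJ.1), ?_⟩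
    rw [Finset.card_insert_of_notMem h1, Finset.card_erase_of_mem hi]
    have : 0 < J.card := Finset.card_pos.2 ⟨i, hi⟩
    omega)
  rw [Finset.sum_insert h1] at h2
  have h3 := Finset.add_sum_erase J A hi
  linarith

variable (y : ∀ a, Fin (N + 1) → D.L a)

/-- the selection of the `n + 1` smallest forms -/
theorem sel_i (hy1 : ∀ a, ∃ j, y a j = 1) {n d q : ℕ} (hd : 0 < d) (I : Ideal (MvPolynomial (Fin (N + 1)) k))
    (hI : ∀ p ∈ I, ∀ m, homogeneousComponent m p ∈ I) (hyI : ∀ a, ∀ p ∈ I, aeval (y a) p = 0)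
    (f : Fin q → MvPolynomial (Fin (N + 1)) k) (hf : ∀ i, (f i).IsHomogeneous d) (T : Finset (Fin q)) (hT : n + 1 ≤ T.card)
    (hgp : ∀ J ⊆ T, J.card = n + 1 → ∀ x : Fin (N + 1) → AlgebraicClosure k, (∀ p ∈ I, aeval x p = 0) →
      (∀ i ∈ J, aeval x (f i) = 0) → x = 0) (hyf : ∀ a, ∀ i ∈ T, aeval (y a) (f i) ≠ 0) (v : Pl k) (g : G)
    (L : Fin q → ℝ) (hL0 : ∀ i ∈ T, 0 ≤ L i) (hL : ∀ i ∈ T, LB D (fun a => gam (D.s a) (D.N a) (y a) d (f i) v g) (L i)) :
    ∃ j : Fin (n + 1) → Fin q, (∀ l, j l ∈ T) ∧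
      (∃ M, ∀ l, (X l : MvPolynomial (Fin (N + 1)) k) ^ M ∈ I ⊔ Ideal.span (Set.range fun l => f (j l))) ∧
      ∑ i ∈ T, L i = ∑ l, L (j l) := by
  classical
  obtain ⟨J, hJT, hJc, hJ⟩ := top68 L T hT
  let j : Fin (n + 1) → Fin q := fun l => J.orderEmbOfFin hJc l
  have hj : Function.Injective j := (J.orderEmbOfFin hJc).injective
  have hjJ : ∀ l, j l ∈ J := fun l => Finset.orderEmbOfFin_mem J hJc l
  have him : Finset.univ.image j = J := by
    ext i
    rw [Finset.mem_image]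
    constructor
    · rintro ⟨l, -, rfl⟩
      exact hjJ l
    · intro hi
      have h1 : i ∈ Set.range (J.orderEmbOfFin hJc) := by
        rw [Finset.range_orderEmbOfFin]
        exact hi
      obtain ⟨l, hl⟩ := h1
      exact ⟨l, Finset.mem_univ _, hl⟩
  have hfin : ∃ M, ∀ l, (X l : MvPolynomial (Fin (N + 1)) k) ^ M ∈ I ⊔ Ideal.span (Set.range fun l => f (j l)) := by
    refine nul_alg hd I hI (fun l => f (j l)) (fun l => hf _) fun y hy hy0 => hgp J hJT hJc y hy fun i hi => ?_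
    rw [← him, Finset.mem_image] at hi
    obtain ⟨l, -, rfl⟩ := hi
    exact hy0 l
  refine ⟨j, fun l => hJT (hjJ l), hfin, ?_⟩
  obtain ⟨C, hC⟩ := gam_nul G I hI (fun l => f (j l)) (fun l => hf _) hfin v
  have h1 : ∀ᶠ a in (D.U : Filter ℕ), ∃ l, gam (D.s a) (D.N a) (y a) d (f (j l)) v g ≤ C :=
    Eventually.of_forall fun a => hC (D.L a) (D.s a) (D.N a) (D.qs a) (y a) (hy1 a) (hyI a) (fun i => hyf a _ (hJT (hjJ i))) g
  obtain ⟨l0, hl0⟩ := Ultrafilter.eventually_exists_iff.1 h1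
  have h2 : L (j l0) ≤ 0 := by
    by_contra hpos
    push Not at hpos
    obtain ⟨a, h3, h4, h5⟩ := (hl0.and ((hL _ (hJT (hjJ l0)) (L (j l0) / 2) (half_pos hpos)).and
      (D.H1.eventually_gt_atTop (C / (L (j l0) / 2))))).exists
    rw [div_lt_iff₀ (half_pos hpos)] at h5
    have h6 : (L (j l0) - L (j l0) / 2) * D.H a = D.H a * (L (j l0) / 2) := by ring
    rw [h6] at h4
    linarith
  have h3 : ∀ i ∈ T \ J, L i = 0 := by
    intro i hi
    rw [Finset.mem_sdiff] at hi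
    exact le_antisymm ((hJ _ (hjJ l0) i hi.1 hi.2).trans h2) (hL0 i hi.1)
  rw [← Finset.sum_sdiff hJT, Finset.sum_eq_zero h3, zero_add, ← him, Finset.sum_image fun l _ l' _ h => hj h]

/-- lower bound for the products -/
theorem lb_prod {n d : ℕ} (f : Fin n → MvPolynomial (Fin (N + 1)) k) (hyf : ∀ a, ∀ i, aeval (y a) (f i) ≠ 0) (v : Pl k) (g : G)
    (L : Fin n → ℝ) (hL : ∀ l, LB D (fun a => gam (D.s a) (D.N a) (y a) d (f l) v g) (L l)) {m β : ℕ} (α : Fin n → ℕ)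
    (b : MvPolynomial (Fin (N + 1)) k) (hb : b.IsHomogeneous (d * β)) (hm : ∑ i, α i + β = m)
    (h : (∏ i, f i ^ α i) * b ∉ vanI D y) :
    LB D (fun a => gam (D.s a) (D.N a) (y a) (d * m) ((∏ i, f i ^ α i) * b) v g) (∑ l, α l * L l) := by
  classical
  have hbv : ∀ᶠ a in (D.U : Filter ℕ), aeval (y a) b ≠ 0 := by
    have h1 : ¬ ∀ᶠ a in (D.U : Filter ℕ), aeval (y a) b = 0 := fun h1 => h (Ideal.mul_mem_left _ _ h1)
    exact Ultrafilter.eventually_not.2 h1
  obtain ⟨C, hC0, hC⟩ := gam_ge G b hb {v}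
  intro η hη
  obtain ⟨A, hA⟩ : ∃ A : ℝ, A = ∑ l, (α l : ℝ) := ⟨_, rfl⟩
  have hA0 : 0 ≤ A := by
    rw [hA]
    exact Finset.sum_nonneg fun l _ => Nat.cast_nonneg _
  have hη' : 0 < η / (2 * (A + 1)) := by positivity
  have h1 : ∀ᶠ a in (D.U : Filter ℕ), ∀ l, (L l - η / (2 * (A + 1))) * D.H a ≤ gam (D.s a) (D.N a) (y a) d (f l) v g :=
    eventually_all.2 fun l => hL l _ hη'
  filter_upwards [hbv, h1, D.H1.eventually_ge_atTop (C / (η / 2)), D.H1.eventually_gt_atTop 0] with a h2 h3 h4 h5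
  rw [gam_prod (D.qs a) f α b hm (hyf a) h2]
  have h6 := hC (D.L a) (D.s a) (D.N a) (D.qs a) (y a) h2 v (Finset.mem_singleton_self v) g
  rw [div_le_iff₀ (half_pos hη)] at h4
  have h7 : ∑ l, (α l : ℝ) * ((L l - η / (2 * (A + 1))) * D.H a) ≤ ∑ l, α l * gam (D.s a) (D.N a) (y a) d (f l) v g :=
    Finset.sum_le_sum fun l _ => mul_le_mul_of_nonneg_left (h3 l) (Nat.cast_nonneg _)
  have h8 : ∑ l, (α l : ℝ) * ((L l - η / (2 * (A + 1))) * D.H a) =
      (∑ l, α l * L l - A * (η / (2 * (A + 1)))) * D.H a := by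
    rw [hA, Finset.sum_mul, ← Finset.sum_sub_distrib, Finset.sum_mul]
    exact Finset.sum_congr rfl fun l _ => by ring
  rw [h8] at h7
  have h9 : A * (η / (2 * (A + 1))) ≤ η / 2 := by
    rw [← mul_div_assoc, div_le_div_iff₀ (by positivity) (by norm_num)]
    nlinarith
  have h10 : (∑ l, α l * L l - η / 2) * D.H a ≤ (∑ l, α l * L l - A * (η / (2 * (A + 1)))) * D.H a :=
    mul_le_mul_of_nonneg_right (by linarith) h5.le
  have h11 : (∑ l, α l * L l - η) * D.H a = (∑ l, α l * L l - η / 2) * D.H a - D.H a * (η / 2) := by ring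
  show (∑ l, α l * L l - η) * D.H a ≤ _
  rw [h11]
  linarith

end

/-! ### the families -/

section

variable {k : Type u} [Field k] [NumberField k]

/-- the families for all injections, with the same `m` -/
private theorem fam68 {N n d q : ℕ} (hd : 0 < d) (I : Ideal (MvPolynomial (Fin (N + 1)) k)) [I.IsPrime]
    (hI : ∀ p ∈ I, ∀ m, homogeneousComponent m p ∈ I)
    (hdim : Algebra.trdeg k (MvPolynomial (Fin (N + 1)) k ⧸ I) = n + 1)
    (f : Fin q → MvPolynomial (Fin (N + 1)) k) (hf : ∀ i, (f i).IsHomogeneous d) {θ : ℝ} (hθ : 0 ≤ θ) (hθ1 : θ ≤ 1)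
    {ε : ℝ} (hε : 0 < ε) :
    ∀ᶠ m : ℕ in atTop, ∀ j : Fin (n + 1) → Fin q,
      (∃ M, ∀ l, (X l : MvPolynomial (Fin (N + 1)) k) ^ M ∈ I ⊔ Ideal.span (Set.range fun l => f (j l))) →
      ∃ (R : ℕ) (α : Fin R → Fin (n + 1) → ℕ) (β : Fin R → ℕ)
      (b : Fin R → MvPolynomial (Fin (N + 1)) k), (∀ t, ∑ i, α t i + β t = m) ∧ (∀ t, (b t).IsHomogeneous (d * β t)) ∧
      LinearIndependent k (fun t => Ideal.Quotient.mk I ((∏ i, f (j i) ^ α t i) * b t)) ∧
      ∀ i, (1 - ε) * (m * Eq n θ) * hilb I (d * m) ≤ ∑ t, min (θ * m) (α t i : ℝ) := by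
  rw [Filter.eventually_all]
  intro j
  by_cases hj : ∃ M, ∀ l, (X l : MvPolynomial (Fin (N + 1)) k) ^ M ∈ I ⊔ Ideal.span (Set.range fun l => f (j l))
  · obtain ⟨m0, hm0⟩ := efx_q hd I hI hdim (fun l => f (j l)) (fun l => hf _) hj hθ hθ1 hε
    exact (eventually_ge_atTop m0).mono fun m hm _ => hm0 m hm
  · exact Eventually.of_forall fun m h => absurd h hj

/-- The exceptional form `Q` is chosen first. Then for all sequences of points outside `Q = 0`, and for finitely many local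
data `(v, g)` (`b = true`: the sum of the values; `b = false`: the values truncated at `θ` times the total), there are a
subspace of the forms of degree `d * m` modulo the vanishing ones, and independent families in it. -/
theorem core0 {N n d q : ℕ} (hd : 0 < d) (I : Ideal (MvPolynomial (Fin (N + 1)) k)) [hIp : I.IsPrime]
    (hI : ∀ p ∈ I, ∀ m, homogeneousComponent m p ∈ I)
    (hdim : Algebra.trdeg k (MvPolynomial (Fin (N + 1)) k ⧸ I) = n + 1)
    (f : Fin q → MvPolynomial (Fin (N + 1)) k) (hf : ∀ i, (f i).IsHomogeneous d) {θ : ℝ} (hθ : 0 ≤ θ) (hθ1 : θ ≤ 1)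
    {ε : ℝ} (hε : 0 < ε) :
    ∃ (m : ℕ) (Q : MvPolynomial (Fin (N + 1)) k), 0 < m ∧ Q ∉ I ∧ (∃ e, Q.IsHomogeneous e) ∧
      ∀ {G : Type} [Group G] [Fintype G] {D : SqG k G} (y : ∀ a, Fin (N + 1) → D.L a), Ptg D y →
        (∀ a, ∀ p ∈ I, aeval (y a) p = 0) → (∀ a, aeval (y a) Q ≠ 0) →
        ∀ {Λ : Type u} [Fintype Λ] (T : Λ → Finset (Fin q)), (∀ l, n + 1 ≤ (T l).card) →
        (∀ l, ∀ J ⊆ T l, J.card = n + 1 → ∀ x : Fin (N + 1) → AlgebraicClosure k, (∀ p ∈ I, aeval x p = 0) →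
          (∀ i ∈ J, aeval x (f i) = 0) → x = 0) → (∀ a, ∀ l, ∀ i ∈ T l, aeval (y a) (f i) ≠ 0) →
        ∀ (v : Λ → Pl k) (g : Λ → G) (b : Λ → Bool) (L : Λ → Fin q → ℝ), (∀ l, ∀ i ∈ T l, 0 ≤ L l i) →
        (∀ l, ∀ i ∈ T l, LB D (fun a => gam (D.s a) (D.N a) (y a) d (f i) (v l) (g l)) (L l i)) →
        ∀ κ : Λ → ℝ, (∀ l, 0 ≤ κ l) →
        ∃ V' : Submodule k (MvPolynomial (Fin (N + 1)) k ⧸ vanI D y), V' ≤ HQ (vanI D y) (d * m) ∧ 0 < finrank k V' ∧
          ∃ (R : Λ → ℕ) (e : ∀ l, Fin (R l) → MvPolynomial (Fin (N + 1)) k) (σ : ∀ l, Fin (R l) → ℝ),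
            (∀ l i, (e l i).IsHomogeneous (d * m)) ∧ (∀ l i, Ideal.Quotient.mk (vanI D y) (e l i) ∈ V') ∧
            (∀ l, LinearIndependent k fun i => Ideal.Quotient.mk (vanI D y) (e l i)) ∧
            (∀ l i, e l i ∈ Submodule.span k {p : MvPolynomial (Fin (N + 1)) k | p.IsHomogeneous (d * m) ∧ (p ∈ vanI D y ∨
              LB D (fun a => gam (D.s a) (D.N a) (y a) (d * m) p (v l) (g l)) (σ l i))}) ∧
            (∀ l i, b l = false → σ l i ≤ m * θ * ∑ i ∈ T l, L l i) ∧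
            finrank k V' * (m * ∑ l, κ l * ((1 - ε) * Eq n (if b l then 1 else θ) * ∑ i ∈ T l, L l i)) ≤
              ∑ l, κ l * ∑ i, σ l i := by
  classical
  by_cases hX : ∃ j, (X j : MvPolynomial (Fin (N + 1)) k) ∉ I
  swap
  · refine ⟨1, 1, one_pos, fun h => hIp.ne_top ((Ideal.eq_top_iff_one I).2 h), ⟨0, isHomogeneous_one _ _⟩, ?_⟩
    intro G _ _ D y hy hyI
    exfalso
    push Not at hX
    obtain ⟨j, hj⟩ := hy.1 0
    have h1 := hyI 0 _ (hX j)
    rw [aeval_X, hj] at h1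
    exact one_ne_zero h1
  obtain ⟨j0, hj0⟩ := hX
  obtain ⟨m, ⟨hm1, hm0⟩, hmpos⟩ := (((fam68 hd I hI hdim f hf zero_le_one le_rfl hε).and
    (fam68 hd I hI hdim f hf hθ hθ1 hε)).and (eventually_ge_atTop 1)).exists
  have hmp : 0 < m := hmpos
  -- the families
  have hfam : ∀ z : Bool × (Fin (n + 1) → Fin q), ∃ (R : ℕ) (α : Fin R → Fin (n + 1) → ℕ) (β : Fin R → ℕ)
      (b : Fin R → MvPolynomial (Fin (N + 1)) k), ((∀ t, ∑ i, α t i + β t = m) ∧ (∀ t, (b t).IsHomogeneous (d * β t)) ∧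
      LinearIndependent k (fun t => Ideal.Quotient.mk I ((∏ i, f (z.2 i) ^ α t i) * b t))) ∧
      ((∃ M, ∀ l, (X l : MvPolynomial (Fin (N + 1)) k) ^ M ∈ I ⊔ Ideal.span (Set.range fun l => f (z.2 l))) →
      ∀ i, (1 - ε) * (m * Eq n (if z.1 then 1 else θ)) * hilb I (d * m) ≤
        ∑ t, min ((if z.1 then 1 else θ) * m) (α t i : ℝ)) := by
    rintro ⟨b, j⟩
    by_cases hj : ∃ M, ∀ l, (X l : MvPolynomial (Fin (N + 1)) k) ^ M ∈ I ⊔ Ideal.span (Set.range fun l => f (j l))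
    · cases b with
      | false =>
        obtain ⟨R, α, β, b, h1, h2, h3, h4⟩ := hm0 j hj
        refine ⟨R, α, β, b, ⟨h1, h2, h3⟩, fun _ => ?_⟩
        simpa using h4
      | true =>
        obtain ⟨R, α, β, b, h1, h2, h3, h4⟩ := hm1 j hj
        refine ⟨R, α, β, b, ⟨h1, h2, h3⟩, fun _ => ?_⟩
        simpa using h4
    · exact ⟨0, Fin.elim0, Fin.elim0, Fin.elim0, ⟨fun t => t.elim0, fun t => t.elim0, linearIndependent_empty_type⟩,
        fun h => absurd h hj⟩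
  choose R α β b hfam hest using hfam
  let p : ∀ z, Fin (R z) → MvPolynomial (Fin (N + 1)) k := fun z t => (∏ i, f (z.2 i) ^ α z t i) * b z t
  have hph : ∀ z t, (p z t).IsHomogeneous (d * m) := by
    intro z t
    have h5 : (∏ i, f (z.2 i) ^ α z t i).IsHomogeneous (∑ i, d * α z t i) :=
      IsHomogeneous.prod _ _ _ fun i _ => (hf _).pow _
    have h6 := h5.mul ((hfam z).2.1 t)
    have h7 : ∑ i, d * α z t i + d * β z t = d * m := by
      rw [← (hfam z).1 t, ← Finset.mul_sum, mul_add]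
    rwa [h7] at h6
  obtain ⟨𝒬, h𝒬, hQ⟩ := Pool.Agent.ZS.hnp.{u, u} I ⟨X j0 ^ (d * m), by
      have := (isHomogeneous_X k j0).pow (d * m)
      rwa [one_mul] at this, fun h => hj0 (hIp.mem_of_pow_mem _ h)⟩ R p hph (fun z => (hfam z).2.2)
  refine ⟨m, ∏ q ∈ 𝒬, q, hmp, ?_, ⟨∑ q ∈ 𝒬, d * m, IsHomogeneous.prod _ _ _ fun q hq => (h𝒬 q hq).1⟩, ?_⟩
  · intro h
    obtain ⟨q, hq, hq'⟩ := hIp.prod_mem_iff.1 h
    exact (h𝒬 q hq).2 hq'
  intro G _ _ D y hy hyI hyQ Λ _ T hT hgp hyf v g bb L hL0 hL κ hκ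
  have hIv : I ≤ vanI D y := fun p hp => Eventually.of_forall fun a => hyI a p hp
  have hQv : ∀ q ∈ 𝒬, q ∉ vanI D y := by
    intro q hq h
    have h1 : ∀ᶠ a in (D.U : Filter ℕ), aeval (y a) q = 0 := h
    obtain ⟨a, ha⟩ := h1.exists
    refine hyQ a ?_
    rw [map_prod]
    exact Finset.prod_eq_zero hq ha
  have hsel := fun l => sel_i y hy.1 hd I hI hyI f hf (T l) (hT l) (hgp l) (fun a => hyf a l) (v l) (g l) (L l) (hL0 l) (hL l)
  choose j hjT hjf hjL using hsel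
  have hP0 : ∀ l, ∀ l', 0 ≤ L l (j l l') := fun l l' => hL0 l _ (hjT l l')
  have hS0 : ∀ l, 0 ≤ ∑ i ∈ T l, L l i := fun l => Finset.sum_nonneg fun i hi => hL0 l i hi
  -- the values
  let s₁ : ∀ l, Fin (R (bb l, j l)) → ℝ := fun l t => ∑ i, α (bb l, j l) t i * L l (j l i)
  have hs₁ : ∀ l t, 0 ≤ s₁ l t := fun l t => Finset.sum_nonneg fun i _ => mul_nonneg (Nat.cast_nonneg _) (hP0 l i)
  let s : ∀ l, Fin (R (bb l, j l)) → ℝ := fun l t => if bb l then s₁ l t else min (m * θ * ∑ i ∈ T l, L l i) (s₁ l t)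
  have hs0 : ∀ l t, 0 ≤ s l t := by
    intro l t
    simp only [s]
    split_ifs
    · exact hs₁ l t
    · exact le_min (mul_nonneg (by positivity) (hS0 l)) (hs₁ l t)
  have hss₁ : ∀ l t, s l t ≤ s₁ l t := by
    intro l t
    simp only [s]
    split_ifs
    · exact le_rfl
    · exact min_le_right _ _
  obtain ⟨V', hV', hpos, n', e, σ, heh, heV, heI, heS, hσ, hmain⟩ := hQ (vanI D y) hIv hQv (fun l => (bb l, j l)) κ s hs0
  refine ⟨V', hV', hpos, n', e, σ, heh, heV, heI, fun l i => ?_, fun l i hb => ?_, ?_⟩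
  · refine Submodule.span_mono ?_ (heS l i)
    rintro _ ⟨t, rfl, ht⟩
    refine ⟨hph _ t, ?_⟩
    by_cases hpv : p (bb l, j l) t ∈ vanI D y
    · exact Or.inl hpv
    · refine Or.inr ?_
      have h1 := lb_prod y (fun i => f (j l i)) (fun a i => hyf a l _ (hjT l i)) (v l) (g l) (fun i => L l (j l i))
        (fun i => hL l _ (hjT l i)) (α (bb l, j l) t) (b (bb l, j l) t) ((hfam _).2.1 t) ((hfam _).1 t) hpv
      intro η hη
      filter_upwards [h1 η hη, D.H1.eventually_gt_atTop 0] with a h2 h3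
      refine le_trans (mul_le_mul_of_nonneg_right ?_ h3.le) h2
      have h4 : σ l i ≤ s₁ l t := ht.trans (hss₁ l t)
      exact sub_le_sub_right h4 η
  · obtain ⟨t, ht⟩ := hσ l i
    rw [ht]
    simp only [s, hb, Bool.false_eq_true, if_false]
    exact min_le_left _ _
  · -- the estimate
    obtain ⟨Dm, hDm⟩ : ∃ Dm : ℝ, Dm = hilb I (d * m) := ⟨_, rfl⟩
    have hDm0 : 0 < Dm := by
      rw [hDm]
      have hfd := Pool.Agent.ZS.fd_hom (k := k) (N := N) (d * m)
      have h3 : Nontrivial (HQ I (d * m)) := by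
        refine ⟨⟨⟨Ideal.Quotient.mk I (X j0 ^ (d * m)), mem_HQ (by
          have := (isHomogeneous_X k j0).pow (d * m)
          rwa [one_mul] at this)⟩, 0, fun h => hj0 (hIp.mem_of_pow_mem (d * m) ?_)⟩⟩
        exact Ideal.Quotient.eq_zero_iff_mem.1 (congrArg Subtype.val h)
      have h4 : 0 < finrank k (HQ I (d * m)) := finrank_pos
      exact_mod_cast h4
    have hest' : ∀ l, Dm * (m * ((1 - ε) * Eq n (if bb l then 1 else θ) * ∑ i ∈ T l, L l i)) ≤ ∑ t, s l t := by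
      intro l
      have h1 := hest (bb l, j l) (hjf l)
      rw [← hDm] at h1
      have h2 : ∑ i, L l (j l i) * ((1 - ε) * (m * Eq n (if bb l then 1 else θ)) * Dm) ≤
          ∑ i, L l (j l i) * ∑ t, min ((if bb l then 1 else θ) * m) (α (bb l, j l) t i : ℝ) :=
        Finset.sum_le_sum fun i _ => mul_le_mul_of_nonneg_left (h1 i) (hP0 l i)
      have h3 : Dm * (m * ((1 - ε) * Eq n (if bb l then 1 else θ) * ∑ i ∈ T l, L l i)) =
          ∑ i, L l (j l i) * ((1 - ε) * (m * Eq n (if bb l then 1 else θ)) * Dm) := by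
        rw [hjL l, ← Finset.sum_mul]
        ring
      rw [h3]
      refine h2.trans ?_
      simp only [Finset.mul_sum]
      rw [Finset.sum_comm]
      refine Finset.sum_le_sum fun t _ => ?_
      simp only [s]
      have h4 : ∑ i, L l (j l i) * min ((if bb l then 1 else θ) * m) (α (bb l, j l) t i : ℝ) ≤ s₁ l t := by
        refine Finset.sum_le_sum fun i _ => ?_
        rw [mul_comm]
        exact mul_le_mul_of_nonneg_right (min_le_right _ _) (hP0 l i)
      split_ifs with hb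
      · simp only [hb, if_true] at h4
        exact h4
      · simp only [hb, if_false, Bool.false_eq_true] at h4
        refine le_min ?_ h4
        rw [hjL l, Finset.mul_sum]
        refine Finset.sum_le_sum fun i _ => ?_
        rw [mul_comm]
        refine mul_le_mul_of_nonneg_right ?_ (hP0 l i)
        refine (min_le_left _ _).trans (le_of_eq ?_)
        ring
    rw [← hDm] at hmain
    have h5 : (finrank k V' : ℝ) * ∑ l, κ l * (Dm * (m * ((1 - ε) * Eq n (if bb l then 1 else θ) * ∑ i ∈ T l, L l i))) ≤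
        finrank k V' * ∑ l, κ l * ∑ t, s l t :=
      mul_le_mul_of_nonneg_left (Finset.sum_le_sum fun l _ => mul_le_mul_of_nonneg_left (hest' l) (hκ l)) (Nat.cast_nonneg _)
    have h6 := h5.trans hmain
    refine le_of_mul_le_mul_left (le_trans (le_of_eq ?_) h6) hDm0
    simp only [Finset.mul_sum]
    exact Finset.sum_congr rfl fun l _ => by ring

end

end Pool.Agent.SQ
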