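import Pool.Agent.Helper42.SQ.GERg
import Pool.Agent.Helper42.SQ.OMg
import Pool.Agent.Helper42.SQ.SUBg
import Pool.Agent.Helper67.SQ4.THMm
import Pool.Agent.Helper27.TOW.ALG
import Pool.Agent.Helper27.TOW.SUBT

/-!
# From the abstract theorems to sequences of points, for a subspace of the space of linear forms

As `germs_m` and `germs_t`, for a subspace, and with asymptotic lower bounds for the values.
-/

set_option autoImplicit false

namespace Pool.Agent.SQ

open NumberField Filter Module MvPolynomial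
open Pool.Agent.Helper64.Vojta (Pl nv sn above)
open Pool.Agent.V2
open Pool.Agent.Chart (fld dg crd hgt)

universe u

section

variable {k : Type u} [Field k] [NumberField k] {G : Type} [Group G] [Fintype G] {D : SqG k G}

/-- asymptotic lower bound -/
def LB (D : SqG k G) (F : ℕ → ℝ) (σ : ℝ) : Prop := ∀ η : ℝ, 0 < η → ∀ᶠ a in (D.U : Filter ℕ), (σ - η) * D.H a ≤ F a

/-- the local value of a linear form -/
noncomputable def tm (D : SqG k G) {ι : Type} [Fintype ι] (x : ∀ n, ι → D.L n) (v : Pl k) (g : G) (m : ι → k) (a : ℕ) : ℝ :=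
  Real.log (mxn (D.N a v) fun l => D.s a g (x a l)) - Real.log (D.N a v (D.s a g (lvg m (x a))))

/-- the germ of the value of a linear form -/
private noncomputable def phi68 (F : GFG D) {ι : Type} [Fintype ι] (ξ : ι → F.K) : (ι → k) →ₗ[k] F.K where
  toFun m := ∑ j, m j • ξ j
  map_add' m m' := by simp [add_smul, Finset.sum_add_distrib]
  map_smul' c m := by simp [Finset.smul_sum, mul_smul]

private theorem ker68 (F : GFG D) {ι : Type} [Fintype ι] (x : ∀ n, ι → D.L n) (hx : Ptg D x) (ξ : ι → F.K)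
    (hξ : ∀ j, ∀ᶠ n in (D.U : Filter ℕ), F.rp (ξ j) n = x n j) : LinearMap.ker (phi68 F ξ) = vang D x := by
  have h0 : ∀ᶠ n in (D.U : Filter ℕ), F.rp 0 n = 0 := by
    have h := F.rp_alg 0
    rw [map_zero] at h
    filter_upwards [h] with n hn
    rw [hn, map_zero]
  ext m
  rw [LinearMap.mem_ker]
  have h1 := rp_lvg F x hx ξ hξ m
  constructor
  · intro h
    have h' : ∑ j, m j • ξ j = 0 := h
    rw [h'] at h1
    show ∀ᶠ n in (D.U : Filter ℕ), lvg m (x n) = 0
    filter_upwards [h0, h1] with n h2 h3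
    rw [← h3, h2]
  · intro h
    have h' : ∀ᶠ n in (D.U : Filter ℕ), lvg m (x n) = 0 := h
    show ∑ j, m j • ξ j = 0
    refine F.rp_inj _ _ ?_
    filter_upwards [h0, h1, h'] with n h2 h3 h4
    rw [h3, h4, h2]

private theorem range68 (F : GFG D) {ι : Type} [Fintype ι] (ξ : ι → F.K) :
    LinearMap.range (phi68 F ξ) = Submodule.span k (Set.range ξ) := by
  ext z
  rw [LinearMap.mem_range, Submodule.mem_span_range_iff_exists_fun]
  rfl

private theorem cinv68 {H : Subgroup G} {ι : Type} [Fintype ι] (x : ∀ n, ι → D.L n)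
    (hxH : ∀ n, ∀ h ∈ H, ∀ j, D.s n h (x n j) = x n j) (v : Pl k) (g h : G) (hh : h ∈ H) :
    cg D x v (g * h) = cg D x v g := by
  unfold cg
  congr 1
  funext n
  congr 3
  funext j
  rw [map_mul, AlgEquiv.mul_apply, hxH n h hh j]

private theorem vinv68 (F : GFG D) {H : Subgroup G} {ι : Type} [Fintype ι] (x : ∀ n, ι → D.L n)
    (hxH : ∀ n, ∀ h ∈ H, ∀ j, D.s n h (x n j) = x n j) (ξ : ι → F.K)
    (hξ : ∀ j, ∀ᶠ n in (D.U : Filter ℕ), F.rp (ξ j) n = x n j) (z : F.K)
    (hz : z ∈ Submodule.span k (Set.range ξ)) (h : G) (hh : h ∈ H) : F.s h z = z := by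
  induction hz using Submodule.span_induction with
  | mem z hz =>
    obtain ⟨j, rfl⟩ := hz
    refine F.rp_inj _ _ ?_
    filter_upwards [F.rp_s h (ξ j), hξ j] with n h1 h2
    rw [h1, h2, hxH n h hh j]
  | zero => exact map_zero _
  | add a b _ _ ha hb => rw [map_add, ha, hb]
  | smul c a _ ha => rw [map_smul, ha]

/-- two elements of the group give the same absolute value on the elements fixed by `H`: the same for the germs -/
private theorem omg68 (F : GFG D) (H : Subgroup G) (v : Pl k) (u g : G)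
    (h0 : ∀ a, ∀ z : D.L a, (∀ h ∈ H, D.s a h z = z) → D.N a v (D.s a (u * g) z) = D.N a v (D.s a g z)) (x : F.K)
    (hx : ∀ h ∈ H, F.s h x = x) : omg F v (F.s (u * g) x) = omg F v (F.s g x) := by
  rcases eq_or_ne x 0 with rfl | hx0
  · rw [map_zero, map_zero]
  have h1 := omg_tendsto F v (F.s (u * g) x) (by rwa [Ne, EmbeddingLike.map_eq_zero_iff])
  have h2 := omg_tendsto F v (F.s g x) (by rwa [Ne, EmbeddingLike.map_eq_zero_iff])
  refine tendsto_nhds_unique h1 (h2.congr' ?_)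
  have h3 : ∀ᶠ n in (D.U : Filter ℕ), ∀ h ∈ H, D.s n h (F.rp x n) = F.rp x n := by
    have : ∀ h : G, ∀ᶠ n in (D.U : Filter ℕ), h ∈ H → D.s n h (F.rp x n) = F.rp x n := by
      intro h
      by_cases hh : h ∈ H
      · filter_upwards [F.rp_s h x] with n hn _
        rw [← hn, hx h hh]
      · exact Eventually.of_forall fun n hn => absurd hn hh
    exact (eventually_all (ι := G)).2 this
  filter_upwards [h3, F.rp_s (u * g) x, F.rp_s g x] with n h4 h5 h6
  rw [h5, h6, h0 n (F.rp x n) h4]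

private theorem cg68 (H : Subgroup G) {ι : Type} [Fintype ι] (x : ∀ n, ι → D.L n)
    (hxH : ∀ n, ∀ h ∈ H, ∀ j, D.s n h (x n j) = x n j) (v : Pl k) (u g : G)
    (h0 : ∀ a, ∀ z : D.L a, (∀ h ∈ H, D.s a h z = z) → D.N a v (D.s a (u * g) z) = D.N a v (D.s a g z)) :
    cg D x v (u * g) = cg D x v g := by
  unfold cg
  congr 1
  funext n
  congr 2
  unfold mxn
  congr 1
  funext j
  exact h0 n (x n j) fun h hh => hxH n h hh j

/-- the limit of the local values -/
private theorem tend68 (F : GFG D) {ι : Type} [Fintype ι] (x : ∀ n, ι → D.L n) (hx : Ptg D x) (ξ : ι → F.K)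
    (hξ : ∀ j, ∀ᶠ n in (D.U : Filter ℕ), F.rp (ξ j) n = x n j) (v : Pl k) (g : G) (m : ι → k) (hm : phi68 F ξ m ≠ 0) :
    Tendsto (fun a => tm D x v g m a / D.H a) (D.U : Filter ℕ) (nhds (omg F v (F.s g (phi68 F ξ m)) + cg D x v g)) := by
  have hne : F.s g (phi68 F ξ m) ≠ 0 := by
    rwa [Ne, EmbeddingLike.map_eq_zero_iff]
  have h1 := omg_tendsto F v _ hne
  have h2 := cg_tendsto x hx v g
  refine (h1.add h2).congr' ?_
  filter_upwards [F.rp_s g (phi68 F ξ m), rp_lvg F x hx ξ hξ m] with a h3 h4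
  have h5 : F.rp (phi68 F ξ m) a = lvg m (x a) := h4
  unfold tm
  rw [h3, h5]
  ring

/-- the values of the linear combinations of forms with a lower bound -/
private theorem val68 (F : GFG D) {ι : Type} [Fintype ι] (x : ∀ n, ι → D.L n) (hx : Ptg D x) (ξ : ι → F.K)
    (hξ : ∀ j, ∀ᶠ n in (D.U : Filter ℕ), F.rp (ξ j) n = x n j) (v : Pl k) (g : G) {σ : ℝ} {e : ι → k}
    (he : e ∈ Submodule.span k {m | m ∈ vang D x ∨ LB D (tm D x v g m) σ}) (h0 : phi68 F ξ e ≠ 0) :
    σ ≤ omg F v (F.s g (phi68 F ξ e)) + cg D x v g := by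
  have h1 : Submodule.span k {m | m ∈ vang D x ∨ LB D (tm D x v g m) σ} ≤
      (lev ((omg_RV F v).comp (F.s g)) (σ - cg D x v g)).comap (phi68 F ξ) := by
    rw [Submodule.span_le]
    intro m hm
    show phi68 F ξ m = 0 ∨ σ - cg D x v g ≤ omg F v (F.s g (phi68 F ξ m))
    by_cases hm0 : phi68 F ξ m = 0
    · exact Or.inl hm0
    · refine Or.inr ?_
      have hm : LB D (tm D x v g m) σ := by
        rcases hm with hm | hm
        · rw [← ker68 F x hx ξ hξ] at hm
          exact absurd hm hm0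
        · exact hm
      have h2 := tend68 F x hx ξ hξ v g m hm0
      rw [sub_le_iff_le_add]
      refine le_of_forall_pos_le_add fun η hη => ?_
      have h3 : ∀ᶠ a in (D.U : Filter ℕ), σ - η ≤ tm D x v g m a / D.H a := by
        filter_upwards [hm η hη, D.H1.eventually_gt_atTop 0] with a h4 h5
        rwa [le_div_iff₀ h5]
      have h4 := ge_of_tendsto h2 h3
      linarith
  rcases h1 he with h2 | h2
  · exact absurd h2 h0
  · have h3 : σ - cg D x v g ≤ omg F v (F.s g (phi68 F ξ e)) := h2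
    linarith

private theorem prod_mono68 {K : Type u} [Field K] [Algebra k K] {ι : Type*} (T : Finset ι) {A B : ι → Submodule k K}
    (h : ∀ i, A i ≤ B i) : ∏ i ∈ T, A i ≤ ∏ i ∈ T, B i := by
  classical
  induction T using Finset.induction_on with
  | empty => rw [Finset.prod_empty, Finset.prod_empty]
  | insert a T ha ih =>
    rw [Finset.prod_insert ha, Finset.prod_insert ha]
    exact mul_le_mul' (h a) ih

private theorem pow_mono68 {K : Type u} [Field K] [Algebra k K] {A B : Submodule k K} (h : A ≤ B) (m : ℕ) : A ^ m ≤ B ^ m := by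
  induction m with
  | zero => rw [pow_zero, pow_zero]
  | succ m ih =>
    rw [pow_succ, pow_succ]
    exact mul_le_mul' ih h

/-- the subspace of the field of germs which belongs to a subspace of the linear forms modulo the vanishing ones -/
private theorem space68 (F : GFG D) {ι : Type} [Fintype ι] (x : ∀ n, ι → D.L n) (hx : Ptg D x) (ξ : ι → F.K)
    (hξ : ∀ j, ∀ᶠ n in (D.U : Filter ℕ), F.rp (ξ j) n = x n j) (V' : Submodule k ((ι → k) ⧸ vang D x)) :
    ∃ V : Submodule k F.K, V ≤ Submodule.span k (Set.range ξ) ∧ finrank k V = finrank k V' ∧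
      ∀ m, (vang D x).mkQ m ∈ V' → phi68 F ξ m ∈ V := by
  have hker := ker68 F x hx ξ hξ
  obtain ⟨Φ, hΦ⟩ : ∃ Φ : ((ι → k) ⧸ vang D x) →ₗ[k] F.K, Φ = (vang D x).liftQ (phi68 F ξ) hker.ge := ⟨_, rfl⟩
  have hΦm : ∀ m, Φ ((vang D x).mkQ m) = phi68 F ξ m := by
    intro m
    rw [hΦ]
    rfl
  have hinj : Function.Injective Φ := by
    rw [← LinearMap.ker_eq_bot, hΦ, Submodule.ker_liftQ_eq_bot]
    exact hker.le
  refine ⟨V'.map Φ, ?_, ?_, fun m hm => ?_⟩
  · rintro _ ⟨z, -, rfl⟩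
    obtain ⟨m, rfl⟩ := (vang D x).mkQ_surjective z
    rw [hΦm, ← range68 F ξ]
    exact LinearMap.mem_range_self _ _
  · exact ((Submodule.equivMapOfInjective Φ hinj V').finrank_eq).symm
  · rw [← hΦm]
    exact Submodule.mem_map_of_mem hm

private theorem hli68 (F : GFG D) {ι : Type} [Fintype ι] (x : ∀ n, ι → D.L n) (hx : Ptg D x) (ξ : ι → F.K)
    (hξ : ∀ j, ∀ᶠ n in (D.U : Filter ℕ), F.rp (ξ j) n = x n j) {m : ℕ} (e : Fin m → ι → k)
    (h : LinearIndependent k fun i => (vang D x).mkQ (e i)) : LinearIndependent k fun i => phi68 F ξ (e i) := by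
  have hker := ker68 F x hx ξ hξ
  rw [Fintype.linearIndependent_iff] at h ⊢
  intro c hc
  refine h c ?_
  have h2 : phi68 F ξ (∑ i, c i • e i) = 0 := by
    rw [map_sum]
    simp only [map_smul]
    exact hc
  have h3 : ∑ i, c i • e i ∈ vang D x := by rw [← hker]; exact h2
  have h4 : (vang D x).mkQ (∑ i, c i • e i) = 0 := by
    rw [Submodule.mkQ_apply, Submodule.Quotient.mk_eq_zero]; exact h3
  rw [map_sum] at h4
  simpa only [map_smul] using h4

/-- As `germs_m`, for a subspace `V'` of the space of linear forms; `σ`, `σ'` are lower bounds of the values. -/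
theorem germs_mi {ι : Type} [Fintype ι] (x : ∀ n, ι → D.L n) (hx : Ptg D x) (P : Finset (Pl k))
    (Hs : Subgroup G) (hH : ∀ a, ∀ h ∈ Hs, ∀ j, D.s a h (x a j) = x a j)
    (lin : Pl k → Prop) [DecidablePred lin] (Gd T : Pl k → Finset G)
    (hC : ∀ a, ∀ v ∈ P, lin v → ∀ u ∈ Gd v, ∀ g ∈ T v, ∀ z : D.L a, (∀ h ∈ Hs, D.s a h z = z) →
      D.N a v (D.s a (u * g) z) = D.N a v (D.s a g z))
    {r : ℕ} (ρ : Fin r → G) (hρ : ∀ g, ∃! j, (ρ j)⁻¹ * g ∈ Hs) (V' : Submodule k ((ι → k) ⧸ vang D x))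
    (n : Pl k → G → ℕ) (e : ∀ v g, Fin (n v g) → ι → k)
    (he : ∀ v ∈ P, ∀ g, LinearIndependent k fun i => (vang D x).mkQ (e v g i))
    (heV : ∀ v ∈ P, ∀ g i, (vang D x).mkQ (e v g i) ∈ V') (σ : ∀ v g, Fin (n v g) → ℝ)
    (hσ : ∀ v ∈ P, ∀ g i, e v g i ∈ Submodule.span k {m | m ∈ vang D x ∨ LB D (tm D x v g m) (σ v g i)})
    (B : Pl k → Fin r → ℝ) (hB : ∀ v ∈ P, ∀ j, 0 ≤ B v j) (n' : Pl k → Fin r → ℕ) (e' : ∀ v j, Fin (n' v j) → ι → k)
    (he' : ∀ v ∈ P, ∀ j, LinearIndependent k fun i => (vang D x).mkQ (e' v j i))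
    (heV' : ∀ v ∈ P, ∀ j i, (vang D x).mkQ (e' v j i) ∈ V') (σ' : ∀ v j, Fin (n' v j) → ℝ)
    (hσ' : ∀ v ∈ P, ∀ j i, e' v j i ∈ Submodule.span k {m | m ∈ vang D x ∨ LB D (tm D x v (ρ j) m) (σ' v j i)})
    (hσB : ∀ v ∈ P, ∀ j i, σ' v j i ≤ B v j) :
    ∑ v ∈ P, (if lin v then ((Gd v).card : ℝ) * ∑ g ∈ T v, ∑ i, σ v g i else
      (Fintype.card G : ℝ) ^ 2 * ∑ j, (∑ i, σ' v j i - (1 - 1 / (r : ℝ)) * B v j * finrank k V')) ≤
      Fintype.card G * finrank k V' := by
  classical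
  obtain ⟨F⟩ := ger_g D
  obtain ⟨ξ, hξ⟩ := exists_xig F x hx
  obtain ⟨V, hV, hfr, hVm⟩ := space68 F x hx ξ hξ V'
  have hfd0 : FiniteDimensional k (Submodule.span k (Set.range ξ)) := FiniteDimensional.span_of_finite k (Set.finite_range ξ)
  have hfd : FiniteDimensional k V := Submodule.finiteDimensional_of_le hV
  have hli : ∀ v ∈ P, ∀ g, LinearIndependent k fun i => phi68 F ξ (e v g i) := fun v hv g => hli68 F x hx ξ hξ _ (he v hv g)
  have hli' : ∀ v ∈ P, ∀ j, LinearIndependent k fun i => phi68 F ξ (e' v j i) := fun v hv j => hli68 F x hx ξ hξ _ (he' v hv j)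
  have hmain := thm_m F.s (P := P) (fun v => omg F v) (fun v => omg_RV F v) (fun v g => cg D x v g)
    V (fun v g z hz hz0 => omg_nonneg F x hx ξ hξ v g z (hV hz) hz0)
    (fun m E hE hEs n' z hz hzE => sub_g F x hx ξ hξ P m E
      (hE.trans (pow_mono68 (prod_mono68 _ fun g => Submodule.map_mono hV) m)) hEs n' z hz hzE)
    Hs (fun h hh z hz => vinv68 F x hH ξ hξ z (hV hz) h hh) (fun v g h hh => cinv68 x hH v g h hh)
    (fun v => lin v) (fun v => Gd v) (fun v => T v)
    (fun v hv u hu g hg => ⟨cg68 Hs x hH v u g fun a z hz => hC a v v.2 hv u hu g hg z hz,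
      fun z hz => omg68 F Hs v u g (fun a z hz => hC a v v.2 hv u hu g hg z hz) z hz⟩)
    ρ hρ (fun v g => n v g) (fun v g i => phi68 F ξ (e v g i)) (fun v g => hli v v.2 g)
    (fun v g i => hVm _ (heV v v.2 g i))
    (fun v j => B v j) (fun v j => hB v v.2 j) (fun v j => n' v j) (fun v j i => phi68 F ξ (e' v j i)) (fun v j => hli' v v.2 j)
    (fun v g i => hVm _ (heV' v v.2 g i))
  rw [hfr] at hmain
  refine le_trans ?_ hmain
  rw [← Finset.sum_coe_sort P]
  refine Finset.sum_le_sum fun v _ => ?_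
  by_cases hv : lin v
  · rw [if_pos hv, if_pos hv]
    refine mul_le_mul_of_nonneg_left ?_ (Nat.cast_nonneg _)
    exact Finset.sum_le_sum fun g _ => Finset.sum_le_sum fun i _ =>
      val68 F x hx ξ hξ v g (hσ v v.2 g i) ((hli v v.2 g).ne_zero i)
  · rw [if_neg hv, if_neg hv]
    refine mul_le_mul_of_nonneg_left ?_ (by positivity)
    refine Finset.sum_le_sum fun j _ => sub_le_sub_right ?_ _
    exact Finset.sum_le_sum fun i _ => le_min (hσB v v.2 j i)
      (val68 F x hx ξ hξ v (ρ j) (hσ' v v.2 j i) ((hli' v v.2 j).ne_zero i))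

/-- As `germs_t`, for a subspace `V'` of the space of linear forms. -/
theorem germs_ti {H : Subgroup G} [Fintype (G ⧸ H)] (hH : H.IsSubnormal) {ι : Type} [Fintype ι] (x : ∀ n, ι → D.L n)
    (hx : Ptg D x) (hxH : ∀ n, ∀ h ∈ H, ∀ j, D.s n h (x n j) = x n j) (P : Finset (Pl k))
    (V' : Submodule k ((ι → k) ⧸ vang D x)) (n : Pl k → G → ℕ) (e : ∀ v g, Fin (n v g) → ι → k)
    (he : ∀ v ∈ P, ∀ g, LinearIndependent k fun i => (vang D x).mkQ (e v g i))
    (heV : ∀ v ∈ P, ∀ g i, (vang D x).mkQ (e v g i) ∈ V') (σ : ∀ v g, Fin (n v g) → ℝ)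
    (hσ : ∀ v ∈ P, ∀ g i, e v g i ∈ Submodule.span k {m | m ∈ vang D x ∨ LB D (tm D x v g m) (σ v g i)}) :
    ∑ v ∈ P, ∑ g, ∑ i, σ v g i ≤ H.index * finrank k V' := by
  classical
  obtain ⟨F⟩ := ger_g D
  obtain ⟨ξ, hξ⟩ := exists_xig F x hx
  obtain ⟨V, hV, hfr, hVm⟩ := space68 F x hx ξ hξ V'
  have hfd0 : FiniteDimensional k (Submodule.span k (Set.range ξ)) := FiniteDimensional.span_of_finite k (Set.finite_range ξ)
  have hfd : FiniteDimensional k V := Submodule.finiteDimensional_of_le hV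
  have hli : ∀ v ∈ P, ∀ g, LinearIndependent k fun i => phi68 F ξ (e v g i) := fun v hv g => hli68 F x hx ξ hξ _ (he v hv g)
  have hmain := thm_t F.s hH (P := P) (fun v => omg F v) (fun v => omg_RV F v) (fun v g => cg D x v g)
    (fun v g h hh => cinv68 x hxH v g h hh)
    V (fun z hz h hh => vinv68 F x hxH ξ hξ z (hV hz) h hh)
    (fun v g z hz hz0 => omg_nonneg F x hx ξ hξ v g z (hV hz) hz0)
    (fun m E hE hEs n' z hz hzE => sub_t F x hx hxH ξ hξ P m E
      (hE.trans (pow_mono68 (prod_mono68 _ fun g => Submodule.map_mono hV) m)) hEs n' z hz hzE)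
    (fun v g => n v g) (fun v g i => phi68 F ξ (e v g i)) (fun v g => hli v v.2 g)
    (fun v g i => hVm _ (heV v v.2 g i))
  rw [hfr] at hmain
  refine le_trans ?_ hmain
  rw [← Finset.sum_coe_sort P]
  exact Finset.sum_le_sum fun v _ => Finset.sum_le_sum fun g _ => Finset.sum_le_sum fun i _ =>
    val68 F x hx ξ hξ v g (hσ v v.2 g i) ((hli v v.2 g).ne_zero i)

end

end Pool.Agent.SQ
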